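import Pool.Agent.H.MP_20495c_lc.G.B

/-!
# Block G, part O: the ordinals
-/

set_option autoImplicit false
set_option linter.unusedSectionVars false

namespace Pool.Agent.H.MP_20495c_lc.G

open Pool.Agent.H.MP_07d118_lc Pool.Agent.H.MP_a163f2_lc

variable {M : Set ZFSet.{0}} [TM M] {n : ℕ}

/-- the formula: `v_k` is transitive -/
def O_trF (k : ℕ) : Fml :=
  .all (.imp (.mem 0 (k + 1)) (.all (.imp (.mem 0 1) (.mem 0 (k + 2)))))

theorem O_satB_trF {b : ZFSet.{0}} (hb : L.Tr b) {v : ℕ → ZFSet.{0}} {k : ℕ} (hk : v k ∈ b) :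
    L.SatB b v (O_trF k) ↔ (v k).IsTransitive := by
  constructor
  · intro h x hx y hy
    have hxb : x ∈ b := hb _ hk x hx
    exact h x hxb hx y (hb x hxb y hy) hy
  · intro h x _ hx y _ hy
    exact h x hx hy

/-- the formula: `v_0` is an ordinal -/
def O_ordF : Fml := L.fconj (O_trF 0) (.all (.imp (.mem 0 1) (O_trF 0)))

theorem O_satB_ordF {b : ZFSet.{0}} (hb : L.Tr b) {v : ℕ → ZFSet.{0}} (h0 : v 0 ∈ b) :
    L.SatB b v O_ordF ↔ (v 0).IsOrdinal := by
  unfold O_ordF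
  rw [L.satB_conj, O_satB_trF hb h0, ZFSet.isOrdinal_iff_forall_mem_isTransitive]
  refine and_congr Iff.rfl ?_
  constructor
  · intro h y hy
    have hyb : y ∈ b := hb _ h0 y hy
    exact (O_satB_trF (v := L.cns y v) (k := 0) hb hyb).1 (h y hyb hy)
  · intro h y hyb hy
    exact (O_satB_trF (v := L.cns y v) (k := 0) hb hyb).2 (h y hy)

/-- The ordinals of `M` are in `LC M`: by induction; if the elements of `α` are in `LC M`, they are
in a level `b ∈ M` (`exists_lev`); the set of the ordinals in `b` is an element of `Kst b` and an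
ordinal, and it is equal to `α` or contains `α`. -/
theorem lc_ord (x : ZFSet.{0}) (hx : x ∈ M) (ho : x.IsOrdinal) : x ∈ LC M := by
  induction x using ZFSet.inductionOn with
  | _ x ih =>
    obtain ⟨c, hc, hxc⟩ := exists_lev (⟨x, hx⟩ : M)
    have hsub : ∀ y ∈ x, y ∈ c.1 := by
      intro y hy
      have hyM : y ∈ M := TM.tr x hx y hy
      exact hxc ⟨y, hyM⟩ hy (ih y hy hyM (ho.mem hy))
    obtain ⟨p, hp⟩ : ∃ p, p ∈ (kst c).1 := ⟨c.1, by rw [kst_val]; exact L.self_mem_Kst c.1⟩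
    have hb : L.Lev (kst c).1 := lev_kst hc
    have hbt : L.Tr (kst c).1 := hb.tr
    have hxb : ∀ y ∈ x, y ∈ (kst c).1 := by
      intro y hy
      rw [kst_val]
      exact L.sub_Kst (hsub y hy)
    obtain ⟨m, hm⟩ := L.dec_surj O_ordF
    obtain ⟨D, hD⟩ : ∃ D, D = L.Dd (kst c).1 m p p := ⟨_, rfl⟩
    have hmem : ∀ z, z ∈ D ↔ z ∈ (kst c).1 ∧ z.IsOrdinal := by
      intro z
      rw [hD, L.mem_Dd, hm]
      refine and_congr_right fun hz => ?_
      exact O_satB_ordF (v := L.cns z (L.cns p fun _ => p)) hbt hz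
    have hDo : D.IsOrdinal := by
      rw [ZFSet.isOrdinal_iff_forall_mem_isOrdinal]
      refine ⟨fun y hy z hz => ?_, fun y hy => ((hmem y).1 hy).2⟩
      obtain ⟨h1, h2⟩ := (hmem y).1 hy
      exact (hmem z).2 ⟨hbt y h1 z hz, h2.mem hz⟩
    have hDL : D ∈ LC M := by
      refine ⟨(kst (kst c)).1, (kst (kst c)).2, lev_kst hb, ?_⟩
      rw [kst_val, hD]
      exact L.Dd_mem_Kst m hp hp
    have hxD : x ⊆ D := fun y hy => (hmem y).2 ⟨hxb y hy, ho.mem hy⟩
    rcases (ho.subset_iff_eq_or_mem hDo).1 hxD with h | h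
    · rw [h]
      exact hDL
    · exact lc_trans D hDL x h

end Pool.Agent.H.MP_20495c_lc.G
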