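import Pool.Agent.H.MP_20495c_lc.G.Z
import Pool.Agent.H.MP_20495c_lc.G.O
import Pool.Agent.H.MP_a163f2_lc.L.Ground
import Pool.Agent.H.MP_20495c_lc.Base

/-!
# Block G: the axiom of constructibility gives the ground model of the construction
-/

set_option autoImplicit false
set_option linter.unusedSectionVars false

namespace Pool.Agent.H.MP_20495c_lc

open Pool.Agent.H.MP_07d118_lc Pool.Agent.H.MP_a163f2_lc

/-- being an ordinal, as a property of the elements of a transitive model -/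
def Main_Ord {M : Set ZFSet.{0}} (x : M) : Prop :=
  (∀ y : M, y ∈ x → ∀ z : M, z ∈ y → z ∈ x) ∧
    ∀ y : M, y ∈ x → ∀ z : M, z ∈ y → ∀ w : M, w ∈ z → w ∈ y

theorem Main_ord_iff {M : Set ZFSet.{0}} (hT : Trans M) (x : M) :
    Main_Ord x ↔ (x : ZFSet.{0}).IsOrdinal := by
  rw [ZFSet.isOrdinal_iff_forall_mem_isTransitive]
  constructor
  · rintro ⟨h1, h2⟩
    constructor
    · intro y hy z hz
      have hyM : y ∈ M := hT _ x.2 _ hy
      have hzM : z ∈ M := hT _ hyM _ hz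
      exact h1 ⟨y, hyM⟩ hy ⟨z, hzM⟩ hz
    · intro y hy z hz w hw
      have hyM : y ∈ M := hT _ x.2 _ hy
      have hzM : z ∈ M := hT _ hyM _ hz
      have hwM : w ∈ M := hT _ hzM _ hw
      exact h2 ⟨y, hyM⟩ hy ⟨z, hzM⟩ hz ⟨w, hwM⟩ hw
  · rintro ⟨h1, h2⟩
    exact ⟨fun y hy z hz => h1 _ hy hz, fun y hy z hz w hw => h2 _ hy _ hz hw⟩

theorem Main_ord_df {M : Set ZFSet.{0}} [ZF M] :
    Df (fun v : Fin 1 → M => Main_Ord (v 0)) := by
  unfold Main_Ord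
  refine Df.and ?_ ?_
  · refine Df.all (P := fun y (v : Fin 1 → M) => y ∈ v 0 → ∀ z : M, z ∈ y → z ∈ v 0) ?_
    refine Df.imp (Df.mem (DfF.var 0) (DfF.var 1)) ?_
    refine Df.all (P := fun z (v : Fin 2 → M) => z ∈ v 0 → z ∈ v 1) ?_
    exact Df.imp (Df.mem (DfF.var 0) (DfF.var 1)) (Df.mem (DfF.var 0) (DfF.var 2))
  · refine Df.all (P := fun y (v : Fin 1 → M) => y ∈ v 0 → ∀ z : M, z ∈ y →
      ∀ w : M, w ∈ z → w ∈ y) ?_
    refine Df.imp (Df.mem (DfF.var 0) (DfF.var 1)) ?_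
    refine Df.all (P := fun z (v : Fin 2 → M) => z ∈ v 0 → ∀ w : M, w ∈ z → w ∈ v 0) ?_
    refine Df.imp (Df.mem (DfF.var 0) (DfF.var 1)) ?_
    refine Df.all (P := fun w (v : Fin 3 → M) => w ∈ v 0 → w ∈ v 1) ?_
    exact Df.imp (Df.mem (DfF.var 0) (DfF.var 1)) (Df.mem (DfF.var 0) (DfF.var 2))

/-- No set of a transitive model contains all its ordinals. -/
theorem Main_no_set {M : Set ZFSet.{0}} (hT : Trans M) [ZF M] (t : M) :
    ∃ x : M, (x : ZFSet.{0}).IsOrdinal ∧ x ∉ t := by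
  by_contra hcon
  have hall : ∀ x : M, (x : ZFSet.{0}).IsOrdinal → x ∈ t := by
    intro x hx
    by_contra hxt
    exact hcon ⟨x, hx, hxt⟩
  have hmem : ∀ x : M, x ∈ sep t Main_Ord ↔ x ∈ t ∧ Main_Ord x := fun x =>
    mem_sep Main_ord_df
  have ho : (sep t Main_Ord : M).1.IsOrdinal := by
    rw [ZFSet.isOrdinal_iff_forall_mem_isOrdinal]
    constructor
    · intro y hy z hz
      have hyM : y ∈ M := hT _ (sep t Main_Ord : M).2 _ hy
      have hzM : z ∈ M := hT _ hyM _ hz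
      have h1 := (Main_ord_iff hT _).1 ((hmem ⟨y, hyM⟩).1 hy).2
      have h2 : z.IsOrdinal := h1.mem hz
      exact (hmem ⟨z, hzM⟩).2 ⟨hall ⟨z, hzM⟩ h2, (Main_ord_iff hT _).2 h2⟩
    · intro y hy
      have hyM : y ∈ M := hT _ (sep t Main_Ord : M).2 _ hy
      exact (Main_ord_iff hT _).1 ((hmem ⟨y, hyM⟩).1 hy).2
  have h3 : (sep t Main_Ord : M) ∈ (sep t Main_Ord : M) :=
    (hmem _).2 ⟨hall _ ho, (Main_ord_iff hT _).2 ho⟩
  exact ZFSet.mem_irrefl _ h3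

/-- `LC M` is equal to `M`, and the union of the levels in `M` is a level. -/
theorem gm_of_vl {M : Set ZFSet.{0}} (hT : Trans M) (hZ : ZF M) (hc : M.Countable) (hV : VL M) :
    ∃ s : ZFSet.{0}, L.GM s ∧ M = L.St s := by
  haveI : G.TM M := ⟨hT, hZ⟩
  have hLC : G.LC M = M := hV (G.LC M) G.lc_sub G.lc_trans G.lc_zf G.lc_ord
  obtain ⟨s, hs⟩ : ∃ s : ZFSet.{0}, ∀ x, x ∈ s ↔ x ∈ M := by
    have hne : M.Nonempty := by
      obtain ⟨a, -⟩ := hZ.infinity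
      exact ⟨a.1, a.2⟩
    obtain ⟨f, hf⟩ := hc.exists_eq_range hne
    refine ⟨ZFSet.range f, fun x => ?_⟩
    rw [ZFSet.mem_range, hf]
    exact Iff.rfl
  have hM : M = L.St s := Set.ext fun x => (hs x).symm
  have hlev : L.Lev s := by
    refine L.lev_of_union {b | b ∈ M ∧ L.Lev b} (fun a ha => ha.2) fun x => ?_
    rw [hs x]
    constructor
    · intro hx
      rw [← hLC] at hx
      obtain ⟨b, hb, hl, hxb⟩ := hx
      exact ⟨b, ⟨hb, hl⟩, hxb⟩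
    · rintro ⟨b, ⟨hb, -⟩, hxb⟩
      exact hT b hb x hxb
  subst hM
  exact ⟨s, ⟨hlev, hZ⟩, rfl⟩

/-- A level which is a model of ZF satisfies the axiom of constructibility. -/
theorem vl_st {s : ZFSet.{0}} (hs : L.GM s) : VL (L.St s) := by
  intro N hN hNt hNz hord
  haveI : G.TM N := ⟨hNt, hNz⟩
  have hsT : Trans (L.St s) := hs.lev.tr
  obtain ⟨t, ht⟩ : ∃ t : ZFSet.{0}, ∀ x, x ∈ t ↔ x ∈ G.LC N := by
    refine ⟨ZFSet.sep (fun x => x ∈ G.LC N) s, fun x => ?_⟩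
    rw [ZFSet.mem_sep]
    exact ⟨fun h => h.2, fun h => ⟨hN (G.lc_sub h), h⟩⟩
  have htl : L.Lev t := by
    refine L.lev_of_union {b | b ∈ N ∧ L.Lev b} (fun a ha => ha.2) fun x => ?_
    rw [ht x]
    constructor
    · rintro ⟨b, hb, hl, hxb⟩
      exact ⟨b, ⟨hb, hl⟩, hxb⟩
    · rintro ⟨b, ⟨hb, hl⟩, hxb⟩
      exact ⟨b, hb, hl, hxb⟩
  rcases htl.cmp hs.lev with h | h | h
  · exfalso
    haveI : ZF (L.St s) := hs.zf
    obtain ⟨x, hx, hxt⟩ := Main_no_set hsT (⟨t, h⟩ : L.St s)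
    refine hxt ?_
    exact (ht x.1).2 (G.lc_ord x.1 (hord x.1 x.2 hx) hx)
  · refine Set.Subset.antisymm hN fun x hx => ?_
    have hx' : x ∈ s := hx
    rw [← h] at hx'
    exact G.lc_sub ((ht x).1 hx')
  · exfalso
    exact ZFSet.mem_irrefl s (hN (G.lc_sub ((ht s).1 h)))

/-- the axiom of constructibility is satisfiable -/
theorem exists_vl : ∃ M : Set ZFSet.{0}, Trans M ∧ M.Countable ∧ ZFC M ∧ VL M := by
  obtain ⟨s, hs, hc, hz⟩ := L.exists_zf_level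
  haveI hG : L.GM s := ⟨hs, hz⟩
  exact ⟨L.St s, hs.tr, hc, inferInstance, vl_st hG⟩

/-- The ground model. -/
theorem ground_vl {M : Set ZFSet.{0}} [Mdl M] (hV : VL M) : ∃ (W : Type 1) (_ : LinearOrder W)
    (_ : Cd M W) (_ : Om1 M W) (c : W × Hc → ℕ → ℕ), Luz M W c ∧ L3 M W c := by
  obtain ⟨s, hG, rfl⟩ := gm_of_vl (M := M) Mdl.tr inferInstance Mdl.cnt hV
  haveI : L.GM s := hG
  obtain ⟨c, hc'⟩ := L.exists_cspec (s := s)
  exact ⟨L.Wt s, inferInstance, inferInstance, L.instOm1, c, L.luz_of_cspec hc',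
    L.l3_of_cspec hc'⟩

end Pool.Agent.H.MP_20495c_lc
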