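import Pool.Agent.H.MP_20495c_lc.G.Defs

/-!
# Block G, part A: assignments and relativized satisfaction
-/

set_option autoImplicit false
set_option linter.unusedSectionVars false

namespace Pool.Agent.H.MP_20495c_lc.G

open Pool.Agent.H.MP_07d118_lc Pool.Agent.H.MP_a163f2_lc

variable {M : Set ZFSet.{0}} [TM M] {n : ℕ}

/-- Induction on `φ`. -/
theorem df_satC {C : M → Prop} (hC : Df (fun w : Fin 1 → M => C (w 0))) (φ : Fml) :
    Df (fun w : Fin 1 → M => SatC C φ (w 0)) := by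
  induction φ with
  | mem i j =>
    exact Df.mem (DfF.Ap (DfF.var 0) (DfF.const (nm i))) (DfF.Ap (DfF.var 0) (DfF.const (nm j)))
  | eq i j =>
    exact Df.eq (DfF.Ap (DfF.var 0) (DfF.const (nm i))) (DfF.Ap (DfF.var 0) (DfF.const (nm j)))
  | bot => exact Df.prop False
  | imp φ ψ ih1 ih2 => exact ih1.imp ih2
  | all φ ih =>
    refine Df.all (P := fun x (w : Fin 1 → M) => C x → ∀ g : M, Cs g x (w 0) → SatC C φ g) ?_
    refine Df.imp (Df.comp1 hC (DfF.var 0)) ?_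
    refine Df.all (P := fun g (w : Fin 2 → M) => Cs g (w 0) (w 1) → SatC C φ g) ?_
    exact Df.imp (Df.cs (DfF.var 0) (DfF.var 1) (DfF.var 2)) (Df.comp1 ih (DfF.var 0))

/-- `f := lam om (fun i => the y with (i = emp ∧ y = x) ∨ ∃ j, i = suc j ∧ y = ap g j)` -/
theorem exists_cs (x g : M) : ∃ f : M, IsFun f om ∧ Cs f x g := by
  obtain ⟨F, hF⟩ : ∃ F : M → M, F = fun i => iota (fun y : M => (i = emp ∧ y = x) ∨
      ∃ j : M, j ∈ (om : M) ∧ i = suc j ∧ y = ap g j) := ⟨_, rfl⟩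
  have hD : DfF (fun w : Fin 1 → M => F (w 0)) := by
    rw [hF]
    refine DfF.Iota (P := fun y (w : Fin 1 → M) => (w 0 = emp ∧ y = x) ∨
      ∃ j : M, j ∈ (om : M) ∧ w 0 = suc j ∧ y = ap g j) ?_
    refine Df.or (Df.and (Df.eq (DfF.var 1) (DfF.const _)) (Df.eq (DfF.var 0) (DfF.const _))) ?_
    refine Df.ex (P := fun j (w : Fin 2 → M) => j ∈ (om : M) ∧ w 1 = suc j ∧ w 0 = ap g j) ?_
    exact (Df.mem (DfF.var 0) (DfF.const _)).and ((Df.eq (DfF.var 2) (DfF.Suc (DfF.var 0))).and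
      (Df.eq (DfF.var 1) (DfF.Ap (DfF.const g) (DfF.var 0))))
  refine ⟨lam om F, isFun_lam hD, ?_, ?_⟩
  · rw [ap_lam hD emp_mem_om, hF]
    refine iota_eq ⟨x, Or.inl ⟨rfl, rfl⟩, ?_⟩ (Or.inl ⟨rfl, rfl⟩)
    rintro y (⟨-, h⟩ | ⟨j, -, h, -⟩)
    · exact h
    · exact absurd h.symm (suc_ne_emp j)
  · intro i hi
    rw [ap_lam hD (suc_mem_om hi), hF]
    refine iota_eq ⟨ap g i, Or.inr ⟨i, hi, rfl, rfl⟩, ?_⟩ (Or.inr ⟨i, hi, rfl, rfl⟩)
    rintro y (⟨h, -⟩ | ⟨j, hj, h, hy⟩)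
    · exact absurd h (suc_ne_emp i)
    · rw [hy, suc_inj hi h]

theorem satC_iff (C : M → Prop) (φ : Fml) : ∀ f : M, SatC C φ f ↔ SatX C (asg f) φ := by
  induction φ with
  | mem i j => exact fun _ => Iff.rfl
  | eq i j => exact fun _ => Iff.rfl
  | bot => exact fun _ => Iff.rfl
  | imp φ ψ ih1 ih2 =>
    intro f
    show (SatC C φ f → SatC C ψ f) ↔ (SatX C (asg f) φ → SatX C (asg f) ψ)
    rw [ih1, ih2]
  | all φ ih =>
    intro f
    show (∀ x : M, C x → ∀ g : M, Cs g x f → SatC C φ g) ↔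
      ∀ x : M, C x → SatX C (L.cns x (asg f)) φ
    refine forall_congr' fun x => forall_congr' fun _ => ?_
    constructor
    · intro h
      obtain ⟨g, -, hg⟩ := exists_cs x f
      rw [← asg_cs hg, ← ih]
      exact h g hg
    · intro h g hg
      rw [ih, asg_cs hg]
      exact h

theorem satX_bd {C : M → Prop} {φ : Fml} : ∀ {m : ℕ}, L.Bd m φ → ∀ {v w : ℕ → M},
    (∀ i < m, v i = w i) → (SatX C v φ ↔ SatX C w φ) := by
  induction φ with
  | mem i j =>
    intro m h v w e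
    show v i ∈ v j ↔ w i ∈ w j
    rw [e i h.1, e j h.2]
  | eq i j =>
    intro m h v w e
    show v i = v j ↔ w i = w j
    rw [e i h.1, e j h.2]
  | bot => exact fun _ _ _ _ => Iff.rfl
  | imp φ ψ ih1 ih2 =>
    intro m h v w e
    show (SatX C v φ → SatX C v ψ) ↔ (SatX C w φ → SatX C w ψ)
    rw [ih1 h.1 e, ih2 h.2 e]
  | all φ ih =>
    intro m h v w e
    show (∀ x : M, C x → SatX C (L.cns x v) φ) ↔ ∀ x : M, C x → SatX C (L.cns x w) φ
    refine forall_congr' fun x => forall_congr' fun _ => ih h fun i hi => ?_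
    cases i with
    | zero => rfl
    | succ i => exact e i (by omega)

theorem lc_sub : LC M ⊆ M := by
  rintro x ⟨b, hb, -, hx⟩
  exact TM.tr b hb x hx

theorem lc_trans : Trans (LC M) := by
  rintro x ⟨b, hb, h, hx⟩ y hy
  exact ⟨b, hb, h, h.tr x hx y hy⟩

/-- Satisfaction in the structure `LC M` is relativized satisfaction. -/
theorem sat_lc (φ : Fml) : ∀ v : ℕ → LC M, Sat v φ ↔
    SatX (fun x : M => (x : ZFSet.{0}) ∈ LC M) (fun i => (⟨(v i).1, lc_sub (v i).2⟩ : M)) φ := by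
  induction φ with
  | mem i j => exact fun _ => Iff.rfl
  | eq i j =>
    intro v
    show v i = v j ↔ (⟨(v i).1, lc_sub (v i).2⟩ : M) = ⟨(v j).1, lc_sub (v j).2⟩
    rw [Subtype.ext_iff, Subtype.ext_iff]
  | bot => exact fun _ => Iff.rfl
  | imp φ ψ ih1 ih2 =>
    intro v
    show (Sat v φ → Sat v ψ) ↔ _
    rw [ih1, ih2]
    exact Iff.rfl
  | all φ ih =>
    intro v
    have key : ∀ x : LC M, Sat (cons x v) φ ↔
        SatX (fun x : M => (x : ZFSet.{0}) ∈ LC M) (L.cns (⟨x.1, lc_sub x.2⟩ : M)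
          (fun i => (⟨(v i).1, lc_sub (v i).2⟩ : M))) φ := by
      intro x
      rw [ih]
      have : (fun i => (⟨(cons x v i).1, lc_sub (cons x v i).2⟩ : M)) =
          L.cns (⟨x.1, lc_sub x.2⟩ : M) (fun i => (⟨(v i).1, lc_sub (v i).2⟩ : M)) := by
        funext i
        cases i <;> rfl
      rw [this]
    constructor
    · intro h x hx
      exact (key ⟨x.1, hx⟩).1 (h ⟨x.1, hx⟩)
    · intro h x
      exact (key x).2 (h ⟨x.1, lc_sub x.2⟩ x.2)

/-- every internal function on numbers is given by an element of the model -/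
theorem exists_num_fn (F : ℕ → ℕ) (hF : IF M F) : ∃ q : M, ∀ k, ap q (nm k) = nm (F k) := by
  refine ⟨(ISet.mk hF).cod, fun k => ?_⟩
  have key : ∀ y : M, Rel (ISet.mk hF).cod (nm k) y ↔ y = nm (F k) := by
    intro y
    rw [rel_iff, ISet.mem_cod_iff]
    constructor
    · rintro ⟨⟨a, b⟩, h, e⟩
      have h' : F a = b := h
      obtain ⟨e1, e2⟩ := opair_inj.1 e
      have e3 : a = k := nm_inj (M := M) e1
      rw [← e3, h']
      exact e2.symm
    · rintro rfl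
      exact ⟨(k, F k), rfl, rfl⟩
  exact iota_eq ⟨_, (key _).2 rfl, fun y hy => (key y).1 hy⟩ ((key _).2 rfl)

end Pool.Agent.H.MP_20495c_lc.G
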