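import Pool.Agent.H.MP_20495c_lc.G.A

/-!
# Block G, part A2: functions on the natural numbers
-/

set_option autoImplicit false
set_option linter.unusedSectionVars false

namespace Pool.Agent.H.MP_20495c_lc.G

open Pool.Agent.H.MP_07d118_lc Pool.Agent.H.MP_a163f2_lc

variable {M : Set ZFSet.{0}} [TM M] {n : ℕ}

theorem A2_df_isFun : Df (fun w : Fin 1 → M => IsFun (w 0) (om : M)) :=
  Df.isFun (DfF.var 0) (DfF.const _)

theorem mem_fno {b f : M} : f ∈ fno b ↔ IsFun f om ∧ ∀ i : M, i ∈ (om : M) → ap f i ∈ b := by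
  unfold fno
  rw [mem_sep A2_df_isFun, mem_pow]
  constructor
  · rintro ⟨hs, hf⟩
    refine ⟨hf, fun i hi => ?_⟩
    have h := hs _ (rel_iff.1 (hf.rel_ap hi))
    exact (opair_mem_prod.1 h).2
  · rintro ⟨hf, h⟩
    refine ⟨fun p hp => ?_, hf⟩
    obtain ⟨x, y, hx, hxy⟩ := hf.1 p hp
    rw [isOPair_iff] at hxy
    have hr : Rel f x y := rel_iff.2 (hxy ▸ hp)
    rw [hxy, opair_mem_prod]
    exact ⟨hx, hf.ap_eq hx hr ▸ h x hx⟩

theorem asg_mem {b f : M} (h : f ∈ fno b) (i : ℕ) : asg f i ∈ b :=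
  (mem_fno.1 h).2 (nm i) (nm_mem i)

/-- `cns x (asg g)` is the assignment of an element of `fno b` for `x ∈ b`, `g ∈ fno b`. -/
theorem exists_cs_fno {b x g : M} (hx : x ∈ b) (hg : g ∈ fno b) : ∃ f : M, f ∈ fno b ∧ Cs f x g := by
  obtain ⟨f, hf, h⟩ := exists_cs x g
  refine ⟨f, mem_fno.2 ⟨hf, fun i hi => ?_⟩, h⟩
  rcases om_cases' i hi with rfl | ⟨j, hj, rfl⟩
  · rw [h.1]
    exact hx
  · rw [h.2 j hj]
    exact (mem_fno.1 hg).2 j hj

/-- the constant assignment -/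
theorem A2_const {b x : M} (hx : x ∈ b) : ∃ f : M, f ∈ fno b ∧ ∀ i : M, i ∈ (om : M) → ap f i = x := by
  have hD : DfF (fun w : Fin 1 → M => (fun _ : M => x) (w 0)) := DfF.const x
  refine ⟨lam om (fun _ => x), mem_fno.2 ⟨isFun_lam hD, fun i hi => ?_⟩, fun i hi => ?_⟩
  · rw [ap_lam hD hi]
    exact hx
  · rw [ap_lam hD hi]

/-- Induction on `N`, with `exists_cs`. -/
theorem exists_asg (b : M) (v : ℕ → M) (hv : ∀ i, v i ∈ b) (N : ℕ) :
    ∃ f : M, f ∈ fno b ∧ ∀ i < N, asg f i = v i := by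
  induction N generalizing v with
  | zero =>
    obtain ⟨f, hf, -⟩ := A2_const (hv 0)
    exact ⟨f, hf, fun i hi => absurd hi (Nat.not_lt_zero i)⟩
  | succ N ih =>
    obtain ⟨g, hg, h⟩ := ih (fun i => v (i + 1)) (fun i => hv (i + 1))
    obtain ⟨f, hf, hc⟩ := exists_cs_fno (hv 0) hg
    refine ⟨f, hf, fun i hi => ?_⟩
    rw [asg_cs hc]
    cases i with
    | zero => rfl
    | succ i => exact h i (Nat.lt_of_succ_lt_succ hi)

theorem exists_fz {b z p q : M} (hz : z ∈ b) (hp : p ∈ b) (hq : q ∈ b) :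
    ∃ f : M, f ∈ fno b ∧ Fz f z p q := by
  obtain ⟨g0, hg0, h0⟩ := A2_const hq
  obtain ⟨g1, hg1, h1⟩ := exists_cs_fno hp hg0
  obtain ⟨f, hf, h⟩ := exists_cs_fno hz hg1
  refine ⟨f, hf, h.1, ?_, fun i hi => ?_⟩
  · rw [h.2 emp emp_mem_om, h1.1]
  · rw [h.2 (suc i) (suc_mem_om hi), h1.2 i hi, h0 i hi]

theorem asg_fz {f z p q : M} (h : Fz f z p q) : asg f = L.cns z (L.cns p fun _ => q) := by
  funext i
  match i with
  | 0 => exact h.1
  | 1 => exact h.2.1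
  | (i + 2) => exact h.2.2 (nm i) (nm_mem i)

end Pool.Agent.H.MP_20495c_lc.G
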