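import Pool.Agent.H.MP_20495c_lc.G.K2

/-!
# Block G, part B: bounding by levels
-/

set_option autoImplicit false
set_option linter.unusedSectionVars false

namespace Pool.Agent.H.MP_20495c_lc.G

open Pool.Agent.H.MP_07d118_lc Pool.Agent.H.MP_a163f2_lc

variable {M : Set ZFSet.{0}} [TM M] {n : ℕ}

theorem lev_kst {b : M} (h : L.Lev b.1) : L.Lev (kst b).1 := by
  rw [kst_val]
  exact h.next

theorem lev_sUn {A : M} (h : ∀ b : M, b ∈ A → L.Lev b.1) : L.Lev (sUn A).1 := by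
  refine L.lev_of_union {a : ZFSet.{0} | ∃ b : M, b ∈ A ∧ b.1 = a} ?_ ?_
  · rintro a ⟨b, hb, rfl⟩
    exact h b hb
  · intro x
    constructor
    · intro hx
      have h1 : x ∈ M := TM.tr _ (sUn A).2 _ hx
      have h2 : (⟨x, h1⟩ : M) ∈ sUn A := hx
      obtain ⟨b, hb, hb'⟩ := mem_sUn.1 h2
      exact ⟨b.1, ⟨b, hb, rfl⟩, hb'⟩
    · rintro ⟨a, ⟨b, hb, rfl⟩, hx⟩
      have h1 : x ∈ M := TM.tr _ b.2 _ hx
      have h2 : (⟨x, h1⟩ : M) ∈ sUn A := mem_sUn.2 ⟨b, hb, hx⟩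
      exact h2

/-- The elements of `A` in `LC M` are contained in a level: the union of the `kst c`, where `c` is
the rank (`L.Rk x c`) of an `x ∈ A`, `x ∈ LC M`. -/
theorem exists_lev (A : M) : ∃ c : M, L.Lev c.1 ∧ ∀ x : M, x ∈ A → x.1 ∈ LC M → x ∈ c := by
  have hD : Df (fun w : Fin 1 → M => ((w 0 : M) : ZFSet.{0}) ∈ LC M) := df_lc (DfF.var 0)
  have hF : DfF (fun w : Fin 1 → M => kst (iota (fun c : M => L.Rk (w 0).1 c.1))) := by
    refine DfF.Kst ?_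
    exact DfF.Iota (P := fun (c : M) (w : Fin 1 → M) => L.Rk (w 0).1 c.1)
      (df_rk (DfF.var _) (DfF.var _))
  have hu : ∀ x : M, x.1 ∈ LC M → ∃! c : M, L.Rk x.1 c.1 := by
    rintro x ⟨b, hb, hl, hx⟩
    obtain ⟨c, hc, hr⟩ := hl.exists_rk hx
    exact ⟨⟨c, TM.tr _ hb _ hc⟩, hr, fun c' hc' => Subtype.ext (hc'.unique hr)⟩
  refine ⟨sUn (image (sep A (fun x => x.1 ∈ LC M)) (fun x => kst (iota (fun c : M =>
    L.Rk x.1 c.1)))), lev_sUn ?_, ?_⟩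
  · intro b hb
    obtain ⟨x, hx, e⟩ := (mem_image hF).1 hb
    have h1 := iota_spec (hu x ((mem_sep hD).1 hx).2)
    rw [e]
    exact lev_kst h1.lev
  · intro x hx hx'
    have h1 := iota_spec (hu x hx')
    refine mem_sUn.2 ⟨_, (mem_image hF).2 ⟨x, (mem_sep hD).2 ⟨hx, hx'⟩, rfl⟩, ?_⟩
    have h2 : x.1 ∈ (kst (iota (fun c : M => L.Rk x.1 c.1))).1 := by
      rw [kst_val]
      exact h1.2.1
    exact h2

/-- `exists_coll` and `exists_lev`. -/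
theorem lev_coll {R : M → M → Prop} (hR : Df (fun w : Fin 2 → M => R (w 0) (w 1))) (A : M) :
    ∃ c : M, L.Lev c.1 ∧ ∀ x : M, x ∈ A → (∃ y : M, y.1 ∈ LC M ∧ R x y) →
      ∃ y : M, y ∈ c ∧ R x y := by
  have h1 : Df (fun w : Fin 2 → M => R (w 0) (w 1) ∧ ((w 1 : M) : ZFSet.{0}) ∈ LC M) :=
    Df.and hR (df_lc (DfF.var 1))
  obtain ⟨B, hB⟩ := exists_coll (R := fun x y : M => R x y ∧ y.1 ∈ LC M) h1 A
  obtain ⟨c, hc, hc'⟩ := exists_lev B
  refine ⟨c, hc, fun x hx hy => ?_⟩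
  obtain ⟨y, hy, hr⟩ := hy
  obtain ⟨y', hy', hr', hl⟩ := hB x y hx ⟨hr, hy⟩
  exact ⟨y', hc' y' hy' hl, hr'⟩

/-- two levels are elements of a level -/
theorem lev_two {a b : M} (ha : L.Lev a.1) (hb : L.Lev b.1) :
    ∃ c : M, L.Lev c.1 ∧ a ∈ c ∧ b ∈ c := by
  have h1 : ∀ b : M, b ∈ kst b := by
    intro b
    have h2 : b.1 ∈ (kst b).1 := by
      rw [kst_val]
      exact L.self_mem_Kst b.1
    exact h2
  have h3 : ∀ a b : M, a.1 ∈ b.1 → a ∈ kst b := by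
    intro a b h
    have h2 : a.1 ∈ (kst b).1 := by
      rw [kst_val]
      exact L.sub_Kst h
    exact h2
  rcases ha.cmp hb with h | h | h
  · exact ⟨kst b, lev_kst hb, h3 a b h, h1 b⟩
  · have e : a = b := Subtype.ext h
    rw [e]
    exact ⟨kst b, lev_kst hb, h1 b, h1 b⟩
  · exact ⟨kst a, lev_kst ha, h1 a, h3 b a h⟩

/-- a level which contains finitely many elements of `LC M` -/
theorem lev_fin (q : ℕ → M) (hq : ∀ i, (q i).1 ∈ LC M) (N : ℕ) :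
    ∃ c : M, L.Lev c.1 ∧ ∀ i ≤ N, q i ∈ c := by
  induction N with
  | zero =>
    obtain ⟨b, hb, hl, h⟩ := hq 0
    refine ⟨⟨b, hb⟩, hl, fun i hi => ?_⟩
    rw [Nat.le_zero.1 hi]
    exact h
  | succ N ih =>
    obtain ⟨c, hc, h1⟩ := ih
    obtain ⟨b, hb, hl, h⟩ := hq (N + 1)
    obtain ⟨d, hd, h2, h3⟩ := lev_two hc (b := ⟨b, hb⟩) hl
    refine ⟨d, hd, fun i hi => ?_⟩
    rcases Nat.lt_or_ge i (N + 1) with h4 | h4
    · exact hd.tr c.1 h2 (q i).1 (h1 i (Nat.lt_succ_iff.1 h4))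
    · rw [le_antisymm hi h4]
      exact hd.tr b h3 (q (N + 1)).1 h

/-- `LC M` is not an element of a level: every level is an element of a level. -/
theorem lev_mem_lc {b : M} (h : L.Lev b.1) : b.1 ∈ LC M :=
  ⟨(kst b).1, (kst b).2, lev_kst h, by rw [kst_val]; exact L.self_mem_Kst b.1⟩

end Pool.Agent.H.MP_20495c_lc.G
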