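import Pool.Agent.H.MP_20495c_lc.G.B

/-!
# Block G, part B2: limit levels
-/

set_option autoImplicit false
set_option linter.unusedSectionVars false

namespace Pool.Agent.H.MP_20495c_lc.G

open Pool.Agent.H.MP_07d118_lc Pool.Agent.H.MP_a163f2_lc

variable {M : Set ZFSet.{0}} [TM M] {n : ℕ}

theorem B2_abs {x : M} {z : ZFSet.{0}} (hz : z ∈ x.1) : ∃ y : M, y ∈ x ∧ y.1 = z :=
  ⟨⟨z, TM.tr _ x.2 z hz⟩, hz, rfl⟩

/-- The sequence of the levels `c, kst c, kst (kst c), ...` as a definable class function. -/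
theorem B2_seq (c : M) : ∃ g : M → M, DfF (fun w : Fin 1 → M => g (w 0)) ∧ g emp = c ∧
    ∀ j : M, j ∈ (om : M) → g (suc j) = kst (g j) := by
  obtain ⟨H, hH⟩ : ∃ H : M → M → M, H = fun h k => iota (fun y => (k = emp ∧ y = c) ∨
      ∃ j : M, k = suc j ∧ y = kst (ap h j)) := ⟨_, rfl⟩
  have hHd : DfF (fun w : Fin 2 → M => H (w 0) (w 1)) := by
    rw [hH]
    refine DfF.Iota (P := fun y (w : Fin 2 → M) => (w 1 = emp ∧ y = c) ∨
      ∃ j : M, w 1 = suc j ∧ y = kst (ap (w 0) j)) ?_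
    refine Df.or (Df.and (Df.eq (DfF.var 2) (DfF.const _)) (Df.eq (DfF.var 0) (DfF.const _))) ?_
    refine Df.ex (P := fun j (w : Fin 3 → M) => w 2 = suc j ∧ w 0 = kst (ap (w 1) j)) ?_
    exact Df.and (Df.eq (DfF.var 3) (DfF.Suc (DfF.var 0)))
      (Df.eq (DfF.var 1) (DfF.Kst (DfF.Ap (DfF.var 2) (DfF.var 0))))
  refine ⟨rc H, DfF.Rc' hHd (DfF.var 0), ?_, ?_⟩
  · rw [rc_eq hHd, hH]
    refine iota_eq ⟨c, Or.inl ⟨rfl, rfl⟩, ?_⟩ (Or.inl ⟨rfl, rfl⟩)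
    rintro y (⟨-, h⟩ | ⟨j, h, -⟩)
    · exact h
    · exact absurd h.symm (suc_ne_emp j)
  · intro j hj
    have hap : ap (lam (suc j) (rc H)) j = rc H j := ap_lam (DfF.Rc' hHd (DfF.var 0)) (lt_suc j)
    rw [rc_eq hHd, ← hap]
    generalize lam (suc j) (rc H) = f
    rw [hH]
    refine iota_eq ⟨kst (ap f j), Or.inr ⟨j, rfl, rfl⟩, ?_⟩ (Or.inr ⟨j, rfl, rfl⟩)
    rintro y (⟨h, -⟩ | ⟨i, h, h'⟩)
    · exact absurd h (suc_ne_emp j)
    · rw [h', suc_inj hj h]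

/-- A limit level: `b` is the union of the levels `c, kst c, kst (kst c), ...`, a set of the model
by recursion on the natural numbers; closed under pairs by `L.upair_mem_Kst` (as in
`L.exists_refl`). -/
theorem exists_lim {c : M} (hc : L.Lev c.1) : ∃ b : M, L.Lev b.1 ∧ c ∈ b ∧
    (∀ x ∈ b.1, ∀ y ∈ b.1, ZFSet.pair x y ∈ b.1) ∧ (∀ x ∈ b.1, (insert x x : ZFSet.{0}) ∈ b.1) := by
  obtain ⟨g, hg, g0, gs⟩ := B2_seq c
  have hs : ∀ k : ℕ, ((g (nm (k + 1)) : M) : ZFSet.{0}) = L.Kst (g (nm k)).1 := fun k => by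
    rw [← kst_val, ← gs (nm k) (nm_mem k)]
    rfl
  have hlev : ∀ k : ℕ, L.Lev (g (nm k)).1 := by
    intro k
    induction k with
    | zero =>
      have e : g (nm 0) = c := g0
      rw [e]
      exact hc
    | succ k ih =>
      rw [hs]
      exact ih.next
  have hmono : ∀ (k l : ℕ), k ≤ l → ∀ x ∈ (g (nm k)).1, x ∈ (g (nm l)).1 := by
    intro k l hkl
    induction l, hkl using Nat.le_induction with
    | base => exact fun _ h => h
    | succ l _ ih =>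
      intro x hx
      rw [hs]
      exact L.sub_Kst (ih x hx)
  have hb : ∀ x : ZFSet.{0}, x ∈ (sUn (image om g) : M).1 ↔ ∃ k : ℕ, x ∈ (g (nm k)).1 := by
    intro x
    constructor
    · intro hx
      obtain ⟨y, hy, rfl⟩ := B2_abs hx
      obtain ⟨z, hz, hyz⟩ := mem_sUn.1 hy
      obtain ⟨k, hk, rfl⟩ := (mem_image hg).1 hz
      obtain ⟨m, rfl⟩ := exists_nm hk
      exact ⟨m, hyz⟩
    · rintro ⟨k, hx⟩
      obtain ⟨y, hy, rfl⟩ := B2_abs hx
      exact mem_sUn.2 ⟨g (nm k), (mem_image hg).2 ⟨nm k, nm_mem k, rfl⟩, hy⟩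
  refine ⟨sUn (image om g), ?_, ?_, ?_, ?_⟩
  · refine lev_sUn fun b hb' => ?_
    obtain ⟨k, hk, rfl⟩ := (mem_image hg).1 hb'
    obtain ⟨m, rfl⟩ := exists_nm hk
    exact hlev m
  · refine (hb c.1).2 ⟨1, ?_⟩
    rw [hs 0]
    have e : g (nm 0) = c := g0
    rw [e]
    exact L.self_mem_Kst c.1
  · intro x hx y hy
    obtain ⟨k, hk⟩ := (hb x).1 hx
    obtain ⟨l, hl⟩ := (hb y).1 hy
    have h1 := hmono k (max k l) (le_max_left _ _) x hk
    have h2 := hmono l (max k l) (le_max_right _ _) y hl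
    refine (hb _).2 ⟨max k l + 1 + 1, ?_⟩
    rw [hs, hs]
    exact L.pair_mem_Kst h1 h2
  · intro x hx
    obtain ⟨k, hk⟩ := (hb x).1 hx
    refine (hb _).2 ⟨k + 1, ?_⟩
    rw [hs]
    exact L.insert_mem_Kst (hlev k).tr hk

end Pool.Agent.H.MP_20495c_lc.G
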