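import Pool.Agent.H.MP_a163f2_lc.L.A5
import Pool.Agent.H.MP_a163f2_lc.L.B0
import Pool.Agent.H.MP_a163f2_lc.Z.Rk
import Pool.Agent.H.MP_a163f2_lc.Z.Wo

/-!
# MP_20495c_lc, block G: the axiom of constructibility for transitive models

`VL M`: `M` has no proper transitive submodel of ZF with the same ordinals.
`LC M`: the class of the elements of the levels which belong to `M`.
-/

set_option autoImplicit false
set_option linter.unusedSectionVars false

namespace Pool.Agent.H.MP_20495c_lc

open Pool.Agent.H.MP_07d118_lc Pool.Agent.H.MP_a163f2_lc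

/-- The transitive model `M` of ZF satisfies the axiom of constructibility: every transitive
submodel of ZF with the same ordinals is equal to `M`. -/
def VL (M : Set ZFSet.{0}) : Prop :=
  ∀ N : Set ZFSet.{0}, N ⊆ M → Trans N → ZF N → (∀ x ∈ M, x.IsOrdinal → x ∈ N) → N = M

namespace G

/-- transitive models of ZF -/
class TM (M : Set ZFSet.{0}) : Prop where
  tr : Trans M
  zf : ZF M

instance instZFTM {M : Set ZFSet.{0}} [h : TM M] : ZF M := h.zf

/-- the elements of the levels which belong to `M` -/
def LC (M : Set ZFSet.{0}) : Set ZFSet.{0} := {x | ∃ b ∈ M, L.Lev b ∧ x ∈ b}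

variable {M : Set ZFSet.{0}} [TM M] {n : ℕ}

/-- `f` is the assignment `x, g 0, g 1, ...` -/
def Cs (f x g : M) : Prop := ap f emp = x ∧ ∀ i : M, i ∈ (om : M) → ap f (suc i) = ap g i

theorem Df.cs {F X H : (Fin n → M) → M} (hF : DfF F) (hX : DfF X) (hH : DfF H) :
    Df (fun v => Cs (F v) (X v) (H v)) := by
  refine Df.comp3 (P := fun f x g => Cs f x g) ?_ hF hX hH
  unfold Cs
  apply_rules (transparency := .reducible) [Df.and, Df.all, Df.imp, Df.mem, Df.eq, DfF.Ap, DfF.Suc,
    DfF.var, DfF.const]

/-- the external assignment given by `f` -/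
noncomputable def asg (f : M) : ℕ → M := fun i => ap f (nm i)

theorem asg_cs {f x g : M} (h : Cs f x g) : asg f = L.cns x (asg g) := by
  funext i
  cases i with
  | zero => exact h.1
  | succ i => exact h.2 (nm i) (nm_mem i)

/-- satisfaction relativized to the class `C` -/
def SatX (C : M → Prop) : (ℕ → M) → Fml → Prop
  | v, .mem i j => v i ∈ v j
  | v, .eq i j => v i = v j
  | _, .bot => False
  | v, .imp φ ψ => SatX C v φ → SatX C v ψ
  | v, .all φ => ∀ x : M, C x → SatX C (L.cns x v) φ

/-- the same with assignments which are elements of the model -/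
def SatC (C : M → Prop) : Fml → M → Prop
  | .mem i j, f => ap f (nm i) ∈ ap f (nm j)
  | .eq i j, f => ap f (nm i) = ap f (nm j)
  | .bot, _ => False
  | .imp φ ψ, f => SatC C φ f → SatC C ψ f
  | .all φ, f => ∀ x : M, C x → ∀ g : M, Cs g x f → SatC C φ g

/-- the set of the functions from the natural numbers to `b` -/
noncomputable def fno (b : M) : M := sep (pow (prod om b)) (fun f => IsFun f om)

theorem DfF.Fno {F : (Fin n → M) → M} (hF : DfF F) : DfF (fun v => fno (F v)) := by
  refine DfF.comp1 (F := fno) ?_ hF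
  exact DfF.Sep (DfF.Pow (DfF.Prod (DfF.const _) (DfF.var 0))) (P := fun f _ => IsFun f om)
    (Df.isFun (DfF.var 0) (DfF.const _))

/-- `f` is the assignment `z, p, q, q, ...` -/
def Fz (f z p q : M) : Prop :=
  ap f emp = z ∧ ap f (suc emp) = p ∧ ∀ i : M, i ∈ (om : M) → ap f (suc (suc i)) = q

theorem Df.fz {F X H K : (Fin n → M) → M} (hF : DfF F) (hX : DfF X) (hH : DfF H) (hK : DfF K) :
    Df (fun v => Fz (F v) (X v) (H v) (K v)) := by
  refine Df.comp4 (P := fun f x g k => Fz f x g k) ?_ hF hX hH hK
  unfold Fz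
  apply_rules (transparency := .reducible) [Df.and, Df.all, Df.imp, Df.mem, Df.eq, DfF.Ap, DfF.Suc,
    DfF.var, DfF.const]

/-- interleaving of two assignments -/
def mrg {A : Type*} (v q : ℕ → A) : ℕ → A := fun i => if i % 2 = 0 then v (i / 2) else q (i / 2)

end G

end Pool.Agent.H.MP_20495c_lc
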