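import Pool.Agent.H.MP_20495c_lc.G.S

/-!
# Block G, part K: the levels are definable in the model
-/

set_option autoImplicit false
set_option linter.unusedSectionVars false

namespace Pool.Agent.H.MP_20495c_lc.G

open Pool.Agent.H.MP_07d118_lc Pool.Agent.H.MP_a163f2_lc

variable {M : Set ZFSet.{0}} [TM M] {n : ℕ}

/-- the definable subset of `b` -/
noncomputable def dd (b m p q : M) : M := sep b (fun z => ∃ f : M, f ∈ SB b m ∧ Fz f z p q)

theorem DfF.Dd {F K P Q : (Fin n → M) → M} (hF : DfF F) (hK : DfF K) (hP : DfF P) (hQ : DfF Q) :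
    DfF (fun v => dd (F v) (K v) (P v) (Q v)) := by
  unfold dd
  refine DfF.Sep hF (P := fun z v => ∃ f : M, f ∈ G.SB (F v) (K v) ∧ Fz f z (P v) (Q v)) ?_
  refine Df.ex (P := fun f (w : Fin (n + 1) → M) => f ∈ G.SB (F fun i => w i.succ)
    (K fun i => w i.succ) ∧ Fz f (w 0) (P fun i => w i.succ) (Q fun i => w i.succ)) ?_
  exact Df.and (Df.mem (DfF.var 0) (DfF.SB (hF.wk fun i => i.succ.succ)
    (hK.wk fun i => i.succ.succ))) (Df.fz (DfF.var 0) (DfF.var 1) (hP.wk fun i => i.succ.succ)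
    (hQ.wk fun i => i.succ.succ))

theorem dd_val {b p q : M} (hp : p ∈ b) (hq : q ∈ b) (k : ℕ) :
    ((dd b (nm k) p q : M) : ZFSet.{0}) = L.Dd b.1 k p.1 q.1 := by
  have hd : Df (fun w : Fin 1 → M => ∃ f : M, f ∈ SB b (nm k) ∧ Fz f (w 0) p q) :=
    Df.ex (P := fun f (w : Fin 1 → M) => f ∈ SB b (nm k) ∧ Fz f (w 0) p q)
      (Df.and (Df.mem (DfF.var 0) (DfF.SB (DfF.const _) (DfF.const _)))
        (Df.fz (DfF.var 0) (DfF.var 1) (DfF.const _) (DfF.const _)))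
  ext z
  rw [L.mem_Dd]
  constructor
  · intro hz
    have hzM : z ∈ M := TM.tr _ (dd b (nm k) p q).2 z hz
    have hz1 : (⟨z, hzM⟩ : M) ∈ dd b (nm k) p q := hz
    unfold dd at hz1
    rw [mem_sep hd] at hz1
    obtain ⟨hzb, f, hf, hfz⟩ := hz1
    refine ⟨hzb, ?_⟩
    have h2 := ((mem_SB b f k).1 hf).2
    rw [asg_fz hfz] at h2
    rw [L.cns_map (fun y : M => y.1), L.cns_map (fun y : M => y.1)] at h2
    exact h2
  · rintro ⟨hzb, h2⟩
    have hzM : z ∈ M := TM.tr _ b.2 z hzb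
    have hz1 : (⟨z, hzM⟩ : M) ∈ dd b (nm k) p q := by
      unfold dd
      rw [mem_sep hd]
      obtain ⟨f, hf, hfz⟩ := exists_fz (z := (⟨z, hzM⟩ : M)) (b := b) hzb hp hq
      refine ⟨hzb, f, (mem_SB b f k).2 ⟨hf, ?_⟩, hfz⟩
      rw [asg_fz hfz, L.cns_map (fun y : M => y.1), L.cns_map (fun y : M => y.1)]
      exact h2
    exact hz1

/-- the next level -/
noncomputable def kst (b : M) : M :=
  sep (un b (un (upair b b) (pow b))) (fun x => x ∈ b ∨ x = b ∨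
    ∃ m : M, m ∈ (om : M) ∧ ∃ p : M, p ∈ b ∧ ∃ q : M, q ∈ b ∧ x = dd b m p q)

theorem DfF.Kst {F : (Fin n → M) → M} (hF : DfF F) : DfF (fun v => kst (F v)) := by
  refine DfF.comp1 (F := kst) ?_ hF
  unfold kst
  refine DfF.Sep (A := fun w : Fin 1 → M => un (w 0) (un (upair (w 0) (w 0)) (pow (w 0))))
    (P := fun x w => x ∈ w 0 ∨ x = w 0 ∨
    ∃ m : M, m ∈ (om : M) ∧ ∃ p : M, p ∈ w 0 ∧ ∃ q : M, q ∈ w 0 ∧ x = dd (w 0) m p q) ?_ ?_
  · exact DfF.Un (DfF.var 0) (DfF.Un (DfF.Upair (DfF.var 0) (DfF.var 0)) (DfF.Pow (DfF.var 0)))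
  · apply_rules (transparency := .reducible) [Df.or, Df.and, Df.ex, Df.mem, Df.eq, DfF.Dd,
      DfF.var, DfF.const]

theorem kst_val (b : M) : ((kst b : M) : ZFSet.{0}) = L.Kst b.1 := by
  have hd : Df (fun w : Fin 1 → M => w 0 ∈ b ∨ w 0 = b ∨
      ∃ m : M, m ∈ (om : M) ∧ ∃ p : M, p ∈ b ∧ ∃ q : M, q ∈ b ∧ w 0 = dd b m p q) := by
    apply_rules (transparency := .reducible) [Df.or, Df.and, Df.ex, Df.mem, Df.eq, DfF.Dd,
      DfF.var, DfF.const]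
  have hk : ∀ x : M, x ∈ kst b ↔ x ∈ b ∨ x = b ∨
      ∃ m : M, m ∈ (om : M) ∧ ∃ p : M, p ∈ b ∧ ∃ q : M, q ∈ b ∧ x = dd b m p q := by
    intro x
    unfold kst
    rw [mem_sep hd]
    refine ⟨fun h => h.2, fun h => ⟨?_, h⟩⟩
    rw [mem_un, mem_un, mem_upair, mem_pow]
    rcases h with h | h | ⟨m, hm, p, hp, q, hq, rfl⟩
    · exact Or.inl h
    · exact Or.inr (Or.inl (Or.inl h))
    · refine Or.inr (Or.inr fun z hz => ?_)
      unfold dd at hz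
      rw [mem_sep (Df.ex (P := fun f (w : Fin 1 → M) => f ∈ SB b m ∧ Fz f (w 0) p q)
        (Df.and (Df.mem (DfF.var 0) (DfF.SB (DfF.const _) (DfF.const _)))
        (Df.fz (DfF.var 0) (DfF.var 1) (DfF.const _) (DfF.const _))))] at hz
      exact hz.1
  ext x
  rw [L.mem_Kst]
  constructor
  · intro hx
    have hxM : x ∈ M := TM.tr _ (kst b).2 x hx
    rcases (hk ⟨x, hxM⟩).1 hx with h | h | ⟨m, hm, p, hp, q, hq, h⟩
    · exact Or.inl h
    · exact Or.inr (Or.inl (congrArg Subtype.val h))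
    · obtain ⟨k, rfl⟩ := exists_nm hm
      refine Or.inr (Or.inr ⟨k, p.1, q.1, hp, hq, ?_⟩)
      rw [← dd_val hp hq k, ← h]
  · rintro (h | h | ⟨k, p, q, hp, hq, h⟩)
    · have hxM : x ∈ M := TM.tr _ b.2 x h
      exact (hk ⟨x, hxM⟩).2 (Or.inl h)
    · subst h
      exact (hk b).2 (Or.inr (Or.inl rfl))
    · have hpM : p ∈ M := TM.tr _ b.2 p hp
      have hqM : q ∈ M := TM.tr _ b.2 q hq
      have h3 : (dd b (nm k) ⟨p, hpM⟩ ⟨q, hqM⟩ : M) ∈ kst b :=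
        (hk _).2 (Or.inr (Or.inr ⟨nm k, nm_mem k, ⟨p, hpM⟩, hp, ⟨q, hqM⟩, hq, rfl⟩))
      have h4 : ((dd b (nm k) ⟨p, hpM⟩ ⟨q, hqM⟩ : M) : ZFSet.{0}) ∈ (kst b : M).1 := h3
      rw [dd_val (b := b) (p := ⟨p, hpM⟩) (q := ⟨q, hqM⟩) hp hq k] at h4
      rw [h]
      exact h4

end Pool.Agent.H.MP_20495c_lc.G
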