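import Pool.Agent.H.MP_20495c_lc.G.K

/-!
# Block G, part K2: the class of levels is definable
-/

set_option autoImplicit false
set_option linter.unusedSectionVars false

namespace Pool.Agent.H.MP_20495c_lc.G

open Pool.Agent.H.MP_07d118_lc Pool.Agent.H.MP_a163f2_lc

variable {M : Set ZFSet.{0}} [TM M] {n : ℕ}

/-- the step condition -/
def K2_St (g b : M) : Prop :=
  ∀ x : M, x ∈ b ↔ ∃ c : M, c ∈ b ∧ ap g c = suc emp ∧ x ∈ kst c

theorem K2_st_df {F G : (Fin n → M) → M} (hF : DfF F) (hG : DfF G) :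
    Df (fun v => K2_St (F v) (G v)) := by
  refine Df.comp2 (P := fun g b => K2_St g b) ?_ hF hG
  unfold K2_St
  apply_rules (transparency := .reducible) [Df.all, Df.iff, Df.ex, Df.and, Df.mem, Df.eq, DfF.Ap,
    DfF.Suc, DfF.Kst, DfF.var, DfF.const]

/-- the step function -/
noncomputable def K2_H (g b : M) : M :=
  iota (fun y => (K2_St g b ∧ y = suc emp) ∨ (¬ K2_St g b ∧ y = emp))

theorem K2_h_df : DfF (fun w : Fin 2 → M => K2_H (w 0) (w 1)) := by
  refine DfF.Iota (P := fun y (w : Fin 2 → M) => (K2_St (w 0) (w 1) ∧ y = suc emp) ∨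
    (¬ K2_St (w 0) (w 1) ∧ y = emp)) ?_
  exact Df.or (Df.and (K2_st_df (DfF.var _) (DfF.var _)) (Df.eq (DfF.var 0) (DfF.const _)))
    (Df.and (Df.not (K2_st_df (DfF.var _) (DfF.var _))) (Df.eq (DfF.var 0) (DfF.const _)))

theorem K2_h_iff (g b : M) : K2_H g b = suc emp ↔ K2_St g b := by
  have hne : (suc emp : M) ≠ emp := by
    intro h
    have h1 : (emp : M) ∈ (suc emp : M) := mem_suc.2 (Or.inr rfl)
    rw [h] at h1
    exact not_mem_emp _ h1
  unfold K2_H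
  by_cases h : K2_St g b
  · refine iff_of_true ?_ h
    have hu : ∃! y : M, (K2_St g b ∧ y = suc emp) ∨ (¬ K2_St g b ∧ y = emp) := by
      refine ⟨suc emp, Or.inl ⟨h, rfl⟩, ?_⟩
      rintro y (⟨-, hy⟩ | ⟨h', -⟩)
      · exact hy
      · exact absurd h h'
    exact iota_eq hu (a := suc emp) (Or.inl ⟨h, rfl⟩)
  · refine iff_of_false ?_ h
    have h1 : iota (fun y : M => (K2_St g b ∧ y = suc emp) ∨ (¬ K2_St g b ∧ y = emp)) = emp := by
      have hu : ∃! y : M, (K2_St g b ∧ y = suc emp) ∨ (¬ K2_St g b ∧ y = emp) := by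
        refine ⟨emp, Or.inr ⟨h, rfl⟩, ?_⟩
        rintro y (⟨h', -⟩ | ⟨-, hy⟩)
        · exact absurd h' h
        · exact hy
      exact iota_eq hu (a := emp) (Or.inr ⟨h, rfl⟩)
    rw [h1]
    exact fun h2 => hne h2.symm

theorem K2_rc (b : M) : rc K2_H b = suc emp ↔ L.Lev b.1 := by
  induction b using mem_ind with
  | h b ih =>
    rw [rc_eq K2_h_df, K2_h_iff]
    unfold K2_St
    rw [L.lev_iff]
    have hap : ∀ c : M, c ∈ b → (ap (lam b (rc K2_H)) c = suc emp ↔ L.Lev c.1) := by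
      intro c hc
      rw [ap_lam (DfF.Rc' K2_h_df (DfF.var 0)) hc]
      exact ih c hc
    constructor
    · intro h x
      constructor
      · intro hx
        obtain ⟨c, hc, h1, h2⟩ := (h ⟨x, TM.tr b.1 b.2 x hx⟩).1 hx
        refine ⟨c.1, hc, (hap c hc).1 h1, ?_⟩
        rw [← kst_val]
        exact h2
      · rintro ⟨c, hc, h1, h2⟩
        have hcM : c ∈ M := TM.tr b.1 b.2 c hc
        have h3 : x ∈ ((kst (⟨c, hcM⟩ : M) : M) : ZFSet.{0}) := by
          rw [kst_val]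
          exact h2
        have hxM : x ∈ M := TM.tr _ (kst (⟨c, hcM⟩ : M)).2 x h3
        exact (h ⟨x, hxM⟩).2 ⟨⟨c, hcM⟩, hc, (hap ⟨c, hcM⟩ hc).2 h1, h3⟩
    · intro h x
      constructor
      · intro hx
        obtain ⟨c, hc, h1, h2⟩ := (h x.1).1 hx
        have hcM : c ∈ M := TM.tr b.1 b.2 c hc
        refine ⟨⟨c, hcM⟩, hc, (hap ⟨c, hcM⟩ hc).2 h1, ?_⟩
        show x.1 ∈ ((kst (⟨c, hcM⟩ : M) : M) : ZFSet.{0})
        rw [kst_val]
        exact h2
      · rintro ⟨c, hc, h1, h2⟩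
        refine (h x.1).2 ⟨c.1, hc, (hap c hc).1 h1, ?_⟩
        rw [← kst_val]
        exact h2

/-- By recursion: `Lev b` iff `rc H b = suc emp` for the step function
`H g b := if (∀ x, x ∈ b ↔ ∃ c ∈ b, ap g c = suc emp ∧ x ∈ kst c) then suc emp else emp`. -/
theorem df_lev {F : (Fin n → M) → M} (hF : DfF F) : Df (fun v => L.Lev (F v).1) := by
  refine Df.congr (P := fun v => rc K2_H (F v) = suc emp) ?_ fun v => (K2_rc (F v)).symm
  exact Df.eq (DfF.Rc' K2_h_df hF) (DfF.const _)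

theorem df_lc {F : (Fin n → M) → M} (hF : DfF F) :
    Df (fun v => ((F v : M) : ZFSet.{0}) ∈ LC M) := by
  refine Df.comp1 (P := fun x : M => (x : ZFSet.{0}) ∈ LC M) ?_ hF
  refine Df.congr (P := fun w : Fin 1 → M => ∃ b : M, L.Lev b.1 ∧ w 0 ∈ b) ?_ ?_
  · refine Df.ex (P := fun b (w : Fin 1 → M) => L.Lev b.1 ∧ w 0 ∈ b) ?_
    exact Df.and (df_lev (DfF.var 0)) (Df.mem (DfF.var _) (DfF.var 0))
  · intro w
    constructor
    · rintro ⟨b, hb, h1, h2⟩
      exact ⟨⟨b, hb⟩, h1, h2⟩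
    · rintro ⟨b, h1, h2⟩
      exact ⟨b.1, b.2, h1, h2⟩

theorem df_rk {F H : (Fin n → M) → M} (hF : DfF F) (hH : DfF H) :
    Df (fun v => L.Rk (F v).1 (H v).1) := by
  refine Df.comp2 (P := fun x b : M => L.Rk x.1 b.1) ?_ hF hH
  refine Df.congr (P := fun w : Fin 2 → M => L.Lev (w 1).1 ∧ w 0 ∈ kst (w 1) ∧ ¬ w 0 ∈ w 1) ?_ ?_
  · exact Df.and (df_lev (DfF.var 1)) (Df.and (Df.mem (DfF.var 0) (DfF.Kst (DfF.var 1)))
      (Df.not (Df.mem (DfF.var 0) (DfF.var 1))))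
  · intro w
    have h : (w 0 : M) ∈ kst (w 1) ↔ (w 0).1 ∈ L.Kst (w 1).1 := by
      rw [← kst_val]
      exact Iff.rfl
    rw [h]
    exact Iff.rfl

end Pool.Agent.H.MP_20495c_lc.G
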