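import Pool.Agent.H.MP_20495c_lc.G.B2

/-!
# Block G, part R: relativized formulas are expressed by bounded formulas
-/

set_option autoImplicit false
set_option linter.unusedSectionVars false

namespace Pool.Agent.H.MP_20495c_lc.G

open Pool.Agent.H.MP_07d118_lc Pool.Agent.H.MP_a163f2_lc

variable {M : Set ZFSet.{0}} [TM M] {n : ℕ}

/-- For the assignments with values in `a` the property `P` is expressed by a formula with
parameters, evaluated in an arbitrary level which contains the parameters. -/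
def BD (a : M) (P : (ℕ → M) → Prop) : Prop :=
  ∃ (ψ : Fml) (N : ℕ) (q : ℕ → M), (∀ i, (q i).1 ∈ LC M) ∧ (∀ i, N ≤ i → q i = q N) ∧
    ∀ c : M, L.Lev c.1 → a ∈ c → (∀ i, q i ∈ c) → ∀ v : ℕ → M, (∀ i, v i ∈ a) →
      (P v ↔ L.SatB c.1 (fun i => (mrg v q i).1) ψ)

theorem R_mrg_even {A : Type*} (v q : ℕ → A) (i : ℕ) : mrg v q (2 * i) = v i := by
  unfold mrg
  rw [if_pos (by omega)]
  congr 1
  omega

theorem R_mrg_odd {A : Type*} (v q : ℕ → A) (i : ℕ) : mrg v q (2 * i + 1) = q i := by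
  unfold mrg
  rw [if_neg (by omega)]
  congr 1
  omega

theorem BD.atom_mem {a : M} (ha : L.Lev a.1) (i j : ℕ) : BD a (fun v => v i ∈ v j) := by
  refine ⟨.mem (2 * i) (2 * j), 0, fun _ => a, fun _ => lev_mem_lc ha, fun _ _ => rfl, ?_⟩
  intro c _ _ _ v _
  rw [L.satB_mem, R_mrg_even, R_mrg_even]
  exact Iff.rfl

theorem BD.atom_eq {a : M} (ha : L.Lev a.1) (i j : ℕ) : BD a (fun v => v i = v j) := by
  refine ⟨.eq (2 * i) (2 * j), 0, fun _ => a, fun _ => lev_mem_lc ha, fun _ _ => rfl, ?_⟩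
  intro c _ _ _ v _
  rw [L.satB_eq, R_mrg_even, R_mrg_even]
  exact Subtype.ext_iff

/-- Merge the parameters (the new parameters are `mrg q q'`, up to the bound `2 * max N N' + 2`). -/
theorem BD.imp {a : M} {P Q : (ℕ → M) → Prop} (hP : BD a P) (hQ : BD a Q) :
    BD a (fun v => P v → Q v) := by
  obtain ⟨ψ1, N1, q1, hq1, hN1, h1⟩ := hP
  obtain ⟨ψ2, N2, q2, hq2, hN2, h2⟩ := hQ
  obtain ⟨B1, hB1⟩ := L.exists_bd ψ1
  obtain ⟨B2, hB2⟩ := L.exists_bd ψ2
  obtain ⟨B, b1, b2, b3, b4⟩ : ∃ B, B1 ≤ B ∧ B2 ≤ B ∧ N1 ≤ B ∧ N2 ≤ B :=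
    ⟨B1 + B2 + N1 + N2, by omega, by omega, by omega, by omega⟩
  let q3 : ℕ → M := fun i =>
    if i < 2 * B + 2 then (if i % 2 = 0 then q1 (i / 2) else q2 (i / 2)) else q1 0
  have e1 : ∀ k, k ≤ B → q3 (2 * k) = q1 k := by
    intro k hk
    show (if 2 * k < 2 * B + 2 then _ else _) = _
    rw [if_pos (by omega), if_pos (by omega)]
    congr 1
    omega
  have e2 : ∀ k, k ≤ B → q3 (2 * k + 1) = q2 k := by
    intro k hk
    show (if 2 * k + 1 < 2 * B + 2 then _ else _) = _
    rw [if_pos (by omega), if_neg (by omega)]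
    congr 1
    omega
  refine ⟨(ψ1.ren fun j => if j % 2 = 0 then j else 2 * (2 * (j / 2)) + 1).imp
      (ψ2.ren fun j => if j % 2 = 0 then j else 2 * (2 * (j / 2) + 1) + 1),
    2 * B + 2, q3, ?_, ?_, ?_⟩
  · intro i
    show ((if i < 2 * B + 2 then (if i % 2 = 0 then q1 (i / 2) else q2 (i / 2)) else q1 0 : M)).1 ∈ _
    split_ifs
    · exact hq1 _
    · exact hq2 _
    · exact hq1 _
  · intro i hi
    show (if i < 2 * B + 2 then _ else _) = (if 2 * B + 2 < 2 * B + 2 then _ else _)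
    rw [if_neg (by omega), if_neg (by omega)]
  · intro c hc hac hqc v hv
    have c1 : ∀ i, q1 i ∈ c := by
      intro i
      rcases le_total i B with h | h
      · rw [← e1 i h]
        exact hqc _
      · rw [hN1 i (b3.trans h), ← e1 N1 b3]
        exact hqc _
    have c2 : ∀ i, q2 i ∈ c := by
      intro i
      rcases le_total i B with h | h
      · rw [← e2 i h]
        exact hqc _
      · rw [hN2 i (b4.trans h), ← e2 N2 b4]
        exact hqc _
    show (P v → Q v) ↔ _
    rw [L.satB_imp, L.satB_ren, L.satB_ren, h1 c hc hac c1 v hv, h2 c hc hac c2 v hv]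
    refine imp_congr (L.satB_bd hB1 fun i hi => ?_) (L.satB_bd hB2 fun i hi => ?_)
    · by_cases h : i % 2 = 0
      · show (mrg v q1 i).1 = (mrg v q3 (if i % 2 = 0 then i else _)).1
        rw [if_pos h]
        unfold mrg
        rw [if_pos h, if_pos h]
      · show (mrg v q1 i).1 = (mrg v q3 (if i % 2 = 0 then i else _)).1
        rw [if_neg h, R_mrg_odd, e1 _ (by omega)]
        unfold mrg
        rw [if_neg h]
    · by_cases h : i % 2 = 0
      · show (mrg v q2 i).1 = (mrg v q3 (if i % 2 = 0 then i else _)).1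
        rw [if_pos h]
        unfold mrg
        rw [if_pos h, if_pos h]
      · show (mrg v q2 i).1 = (mrg v q3 (if i % 2 = 0 then i else _)).1
        rw [if_neg h, R_mrg_odd, e2 _ (by omega)]
        unfold mrg
        rw [if_neg h]

/-- Bounded quantifier: the new parameters are `cns a' q`, the formula is
`∀ x, x ∈ a' → ψ (x, v, q)`. -/
theorem BD.ball {a a' : M} (ha' : L.Lev a'.1) (hs : ∀ x : M, x ∈ a → x ∈ a')
    {P : (ℕ → M) → Prop} (hP : BD a' P) :
    BD a (fun v => ∀ x : M, x ∈ a' → P (L.cns x v)) := by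
  obtain ⟨ψ, N, q, hq, hN, h⟩ := hP
  refine ⟨.all (.imp (.mem 0 2) (ψ.ren fun j => if j % 2 = 0 then j - 1 else j + 3)),
    N + 1, L.cns a' q, ?_, ?_, ?_⟩
  · intro i
    cases i with
    | zero => exact lev_mem_lc ha'
    | succ i => exact hq i
  · intro i hi
    cases i with
    | zero => omega
    | succ i => exact hN i (by omega)
  · intro c hc _ hqc v hv
    have ha'c : a' ∈ c := hqc 0
    have hqc' : ∀ i, q i ∈ c := fun i => hqc (i + 1)
    have key : ∀ x : M, x ∈ a' → (P (L.cns x v) ↔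
        L.SatB c.1 (L.cns x.1 fun i => (mrg v (L.cns a' q) i).1)
          (ψ.ren fun j => if j % 2 = 0 then j - 1 else j + 3)) := by
      intro x hx
      rw [h c hc ha'c hqc' (L.cns x v) (fun i => by
        cases i with
        | zero => exact hx
        | succ i => exact hs _ (hv i)), L.satB_ren]
      refine Eq.to_iff (congrArg (fun w => L.SatB c.1 w ψ) (funext fun j => ?_))
      by_cases h2 : j % 2 = 0
      · obtain ⟨k, rfl⟩ : ∃ k, j = 2 * k := ⟨j / 2, by omega⟩
        show (mrg (L.cns x v) q (2 * k)).1 =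
          L.cns x.1 (fun i => (mrg v (L.cns a' q) i).1) (if 2 * k % 2 = 0 then 2 * k - 1 else _)
        rw [if_pos h2, R_mrg_even]
        cases k with
        | zero => rfl
        | succ k =>
          show (v k).1 = (mrg v (L.cns a' q) (2 * k)).1
          rw [R_mrg_even]
      · obtain ⟨k, rfl⟩ : ∃ k, j = 2 * k + 1 := ⟨j / 2, by omega⟩
        show (mrg (L.cns x v) q (2 * k + 1)).1 =
          L.cns x.1 (fun i => (mrg v (L.cns a' q) i).1)
            (if (2 * k + 1) % 2 = 0 then _ else 2 * k + 1 + 3)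
        rw [if_neg h2, R_mrg_odd]
        show (q k).1 = (mrg v (L.cns a' q) (2 * (k + 1) + 1)).1
        rw [R_mrg_odd]
        rfl
    rw [L.satB_all]
    constructor
    · intro hP x hx
      rw [L.satB_imp, L.satB_mem]
      intro hxa
      have hxM : x ∈ M := (TM.tr (M := M)) c.1 c.2 x hx
      have hxa' : (⟨x, hxM⟩ : M) ∈ a' := by
        have h4 : x ∈ (mrg v (L.cns a' q) (2 * 0 + 1)).1 := hxa
        rw [R_mrg_odd] at h4
        exact h4
      exact (key ⟨x, hxM⟩ hxa').1 (hP ⟨x, hxM⟩ hxa')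
    · intro hP x hx
      rw [key x hx]
      have hxc : x.1 ∈ c.1 := hc.tr _ ha'c _ hx
      have h3 := hP x.1 hxc
      rw [L.satB_imp, L.satB_mem] at h3
      refine h3 ?_
      show x.1 ∈ (mrg v (L.cns a' q) (2 * 0 + 1)).1
      rw [R_mrg_odd]
      exact hx

end Pool.Agent.H.MP_20495c_lc.G
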