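import Pool.Agent.H.MP_20495c_lc.G.R

/-!
# Block G, part R2: separation
-/

set_option autoImplicit false
set_option linter.unusedSectionVars false

namespace Pool.Agent.H.MP_20495c_lc.G

open Pool.Agent.H.MP_07d118_lc Pool.Agent.H.MP_a163f2_lc

variable {M : Set ZFSet.{0}} [TM M] {n : ℕ}

/-- Witnesses: apply `lev_coll` to `fno a` and the relation
`R f y := ∀ g, Cs g y f → ¬ SatC C φ g`; use `exists_asg` (`φ` has finitely many variables). -/
theorem exists_wit {a : M} (ha : L.Lev a.1) (φ : Fml) : ∃ a' : M, L.Lev a'.1 ∧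
    (∀ x : M, x ∈ a → x ∈ a') ∧ ∀ v : ℕ → M, (∀ i, v i ∈ a) →
      (∃ x : M, x.1 ∈ LC M ∧ ¬ SatX (fun x : M => x.1 ∈ LC M) (L.cns x v) φ) →
      ∃ x : M, x ∈ a' ∧ ¬ SatX (fun x : M => x.1 ∈ LC M) (L.cns x v) φ := by
  obtain ⟨C, hCe⟩ : ∃ C : M → Prop, C = fun x : M => x.1 ∈ LC M := ⟨_, rfl⟩
  have hC : Df (fun w : Fin 1 → M => C (w 0)) := by
    rw [hCe]
    exact df_lc (DfF.var 0)
  rw [← hCe]
  have hR : Df (fun w : Fin 2 → M => ∀ g : M, Cs g (w 1) (w 0) → ¬ SatC C φ g) := by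
    refine Df.all (P := fun g (w : Fin 2 → M) => Cs g (w 1) (w 0) → ¬ SatC C φ g) ?_
    exact Df.imp (Df.cs (DfF.var 0) (DfF.var 2) (DfF.var 1))
      (Df.comp1 (P := fun g => SatC C φ g) (df_satC hC φ) (DfF.var 0)).not
  obtain ⟨c, hc, h1⟩ := lev_coll (R := fun f y => ∀ g : M, Cs g y f → ¬ SatC C φ g) hR (fno a)
  obtain ⟨d, hd, had, hcd⟩ := lev_two ha hc
  refine ⟨d, hd, fun x hx => hd.tr _ had _ hx, fun v hv hex => ?_⟩
  obtain ⟨N, hN⟩ := L.exists_bd φ
  obtain ⟨f, hf, hfv⟩ := exists_asg a v hv N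
  have hag : ∀ x : M, SatX C (L.cns x (asg f)) φ ↔ SatX C (L.cns x v) φ := by
    intro x
    refine satX_bd (hN.mono (Nat.le_succ N)) fun i hi => ?_
    cases i with
    | zero => rfl
    | succ i => exact hfv i (by omega)
  have key : ∀ x : M, (∀ g : M, Cs g x f → ¬ SatC C φ g) ↔ ¬ SatX C (L.cns x v) φ := by
    intro x
    constructor
    · intro h
      obtain ⟨g, -, hg⟩ := exists_cs x f
      have h2 := h g hg
      rwa [satC_iff, asg_cs hg, hag] at h2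
    · intro h g hg
      rwa [satC_iff, asg_cs hg, hag]
  obtain ⟨x, hx, hx'⟩ := hex
  obtain ⟨y, hy, hy'⟩ := h1 f hf ⟨x, hx, (key x).2 hx'⟩
  exact ⟨y, hd.tr _ hcd _ hy, (key y).1 hy'⟩

theorem BD.congr {a : M} {P Q : (ℕ → M) → Prop} (h : BD a P)
    (e : ∀ v : ℕ → M, (∀ i, v i ∈ a) → (Q v ↔ P v)) : BD a Q := by
  obtain ⟨ψ, N, q, h1, h2, h3⟩ := h
  exact ⟨ψ, N, q, h1, h2, fun c hc hac hq v hv => (e v hv).trans (h3 c hc hac hq v hv)⟩

/-- Induction on `φ`. -/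
theorem bd_satX (φ : Fml) : ∀ a : M, L.Lev a.1 →
    BD a (fun v => SatX (fun x : M => x.1 ∈ LC M) v φ) := by
  induction φ with
  | mem i j => exact fun a ha => BD.atom_mem ha i j
  | eq i j => exact fun a ha => BD.atom_eq ha i j
  | bot =>
    intro a ha
    exact ⟨.bot, 0, fun _ => a, fun _ => lev_mem_lc ha, fun _ _ => rfl, fun c _ _ _ v _ => Iff.rfl⟩
  | imp φ ψ ih1 ih2 => exact fun a ha => BD.imp (ih1 a ha) (ih2 a ha)
  | all φ ih =>
    intro a ha
    obtain ⟨a', ha', hs, h1⟩ := exists_wit ha φ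
    refine (BD.ball ha' hs (ih a' ha')).congr fun v hv => ?_
    constructor
    · intro h x hx
      exact h x ⟨a'.1, a'.2, ha', hx⟩
    · intro h x hx
      by_contra hcon
      obtain ⟨y, hy, hy'⟩ := h1 v hv ⟨x, hx, hcon⟩
      exact hy' (h y hy)

theorem R2_mrg {A : Type*} (z : A) (v q : ℕ → A) : mrg (L.cns z v) q = L.cns z (mrg q v) := by
  funext i
  cases i with
  | zero => rfl
  | succ k =>
    rw [L.cns_succ]
    unfold mrg
    rcases Nat.mod_two_eq_zero_or_one k with h | h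
    · rw [if_neg (by omega), if_pos h]
      congr 1
      omega
    · rw [if_pos (by omega), if_neg (by omega), show (k + 1) / 2 = k / 2 + 1 by omega]
      rfl

/-- Separation: choose a limit level `c` above the parameters, use `L.one_param` as in
`L.LL_sep`. -/
theorem lc_sep (a : LC M) (φ : Fml) (v : ℕ → LC M) :
    ∃ s : LC M, ∀ z : LC M, z ∈ s ↔ z ∈ a ∧ Sat (cons z v) φ := by
  obtain ⟨N, hN⟩ := L.exists_bd φ
  obtain ⟨u, hu⟩ : ∃ u : ℕ → M, u = fun i => ⟨(v (min i N)).1, lc_sub (v (min i N)).2⟩ := ⟨_, rfl⟩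
  obtain ⟨a0, ha0⟩ : ∃ a0 : M, a0 = ⟨a.1, lc_sub a.2⟩ := ⟨_, rfl⟩
  have ha0' : a0.1 = a.1 := by rw [ha0]
  have hu1 : ∀ i, (u i).1 = (v (min i N)).1 := fun i => by rw [hu]
  have hu2 : ∀ i, u i = u (min i N) := by
    intro i
    apply Subtype.ext
    rw [hu1, hu1]
    congr 2
    omega
  -- a level containing the parameters
  obtain ⟨c0, hc0, hc0'⟩ := lev_fin (L.cns a0 u) (by
    intro i
    cases i with
    | zero =>
      show a0.1 ∈ LC M
      rw [ha0']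
      exact a.2
    | succ i =>
      show (u i).1 ∈ LC M
      rw [hu1]
      exact (v _).2) (N + 1)
  have hac0 : a0 ∈ c0 := hc0' 0 (Nat.zero_le _)
  have huc0 : ∀ i, u i ∈ c0 := by
    intro i
    rw [hu2]
    exact hc0' (min i N + 1) (by omega)
  obtain ⟨ψ, K, q, hq1, hq2, hψ⟩ := bd_satX (M := M) φ c0 hc0
  obtain ⟨c1, hc1, hc1'⟩ := lev_fin (L.cns c0 q) (by
    intro i
    cases i with
    | zero => exact lev_mem_lc hc0
    | succ i => exact hq1 i) (K + 1)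
  obtain ⟨b, hb, hc1b, hp, -⟩ := exists_lim hc1
  have hc0b : c0 ∈ b := hb.tr _ hc1b _ (hc1' 0 (Nat.zero_le _))
  have hqb : ∀ i, q i ∈ b := by
    intro i
    rcases Nat.lt_or_ge i K with h | h
    · exact hb.tr _ hc1b _ (hc1' (i + 1) (by omega))
    · rw [hq2 i h]
      exact hb.tr _ hc1b _ (hc1' (K + 1) le_rfl)
  have hub : ∀ i, u i ∈ b := fun i => hb.tr _ hc0b _ (huc0 i)
  have hab : a0 ∈ b := hb.tr _ hc0b _ hac0
  let ρ : ℕ → ℕ := fun i => Nat.casesOn i 0 fun i => i + 2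
  have ht : ∀ i, (L.cns a0 (mrg q u) i).1 ∈ b.1 := by
    intro i
    cases i with
    | zero => exact hab
    | succ i =>
      show (mrg q u i).1 ∈ b.1
      unfold mrg
      split_ifs
      · exact hqb _
      · exact hub _
  obtain ⟨k, p, hpb, hk⟩ := L.one_param hb.tr hp (L.fconj (.mem 0 1) (ψ.ren ρ))
    (fun i => (L.cns a0 (mrg q u) i).1) ht
  have hmem : L.Dd b.1 k p p ∈ (kst b).1 := by
    rw [kst_val]
    exact L.Dd_mem_Kst k hpb hpb
  refine ⟨⟨L.Dd b.1 k p p, ⟨(kst b).1, (kst b).2, lev_kst hb, hmem⟩⟩, fun z => ?_⟩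
  show z.1 ∈ L.Dd b.1 k p p ↔ z.1 ∈ a.1 ∧ _
  obtain ⟨z0, hz0⟩ : ∃ z0 : M, z0 = ⟨z.1, lc_sub z.2⟩ := ⟨_, rfl⟩
  have hz0' : z0.1 = z.1 := by rw [hz0]
  -- satisfaction in LC M
  have hsat : Sat (cons z v) φ ↔ SatX (fun x : M => x.1 ∈ LC M) (L.cns z0 u) φ := by
    rw [sat_lc]
    refine satX_bd hN fun i hi => ?_
    apply Subtype.ext
    cases i with
    | zero => exact hz0'.symm
    | succ i =>
      show (v i).1 = (u i).1
      rw [hu1, min_eq_left (by omega)]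
  have key : z.1 ∈ b.1 → (L.SatB b.1 (L.cns z.1 (L.cns p fun _ => p)) (L.dec k) ↔
      z.1 ∈ a.1 ∧ Sat (cons z v) φ) := by
    intro hz
    rw [← hk z.1 hz, L.satB_conj, L.satB_ren]
    have e0 : L.SatB b.1 (L.cns z.1 fun i => (L.cns a0 (mrg q u) i).1) (.mem 0 1) ↔
        z.1 ∈ a.1 := by
      rw [L.satB_mem, ← ha0']
      exact Iff.rfl
    rw [e0]
    refine and_congr_right fun hza => ?_
    have hza0 : z0 ∈ c0 := by
      refine hc0.tr _ hac0 _ ?_
      show z0.1 ∈ a0.1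
      rw [hz0', ha0']
      exact hza
    have h1 := hψ b hb hc0b hqb (L.cns z0 u) (fun i => by
      cases i with
      | zero => exact hza0
      | succ i => exact huc0 i)
    beta_reduce at h1
    rw [hsat, h1, R2_mrg]
    have e1 : (fun i => L.cns z.1 (fun i => (L.cns a0 (mrg q u) i).1) (ρ i)) =
        fun i => (L.cns z0 (mrg q u) i).1 := by
      funext i
      cases i with
      | zero => exact hz0'.symm
      | succ i => rfl
    rw [e1]
  constructor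
  · intro h
    obtain ⟨h1, h2⟩ := L.mem_Dd.1 h
    exact (key h1).1 h2
  · intro h
    have hz : z.1 ∈ b.1 := by
      have h1 : z.1 ∈ a0.1 := by rw [ha0']; exact h.1
      exact hb.tr _ hab _ h1
    exact L.mem_Dd.2 ⟨hz, (key hz).2 h⟩

end Pool.Agent.H.MP_20495c_lc.G
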