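import Pool.Agent.H.MP_20495c_lc.G.A2

/-!
# Block G, part S: satisfaction in set structures, as a definable class function
-/

set_option autoImplicit false
set_option linter.unusedSectionVars false

namespace Pool.Agent.H.MP_20495c_lc.G

open Pool.Agent.H.MP_07d118_lc Pool.Agent.H.MP_a163f2_lc

section

variable (M : Set ZFSet.{0}) [TM M]

theorem if1 : IF M (fun k : ℕ => ((k - 1) / 4).unpair.1) := by
  exact IF.comp IF.fst (IF.comp IF.unpair (L.IF.div' (L.IF.sub' IF.id (IF.const 1)) (IF.const 4)))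

theorem if2 : IF M (fun k : ℕ => ((k - 1) / 4).unpair.2) := by
  exact IF.comp IF.snd (IF.comp IF.unpair (L.IF.div' (L.IF.sub' IF.id (IF.const 1)) (IF.const 4)))

theorem if3 : IF M (fun k : ℕ => (k - 1) / 4) :=
  L.IF.div' (L.IF.sub' IF.id (IF.const 1)) (IF.const 4)

theorem inr (r : ℕ) : In M (fun k : ℕ => 1 ≤ k ∧ (k - 1) % 4 = r) :=
  (In.le (IF.const 1) IF.id).and (In.nat_eq (L.IF.mod' (L.IF.sub' IF.id (IF.const 1))
    (IF.const 4)) r)

/-- the elements of the model which give the functions and sets of numbers used below -/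
noncomputable def q1 : M := (exists_num_fn _ (if1 M)).choose
noncomputable def q2 : M := (exists_num_fn _ (if2 M)).choose
noncomputable def q3 : M := (exists_num_fn _ (if3 M)).choose
noncomputable def qr (r : ℕ) : M := (inr M r).choose

theorem ap_q1 (k : ℕ) : ap (q1 M) (nm k) = nm ((k - 1) / 4).unpair.1 :=
  (exists_num_fn _ (if1 M)).choose_spec k
theorem ap_q2 (k : ℕ) : ap (q2 M) (nm k) = nm ((k - 1) / 4).unpair.2 :=
  (exists_num_fn _ (if2 M)).choose_spec k
theorem ap_q3 (k : ℕ) : ap (q3 M) (nm k) = nm ((k - 1) / 4) :=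
  (exists_num_fn _ (if3 M)).choose_spec k
theorem mem_qr (r k : ℕ) : nm k ∈ qr M r ↔ 1 ≤ k ∧ (k - 1) % 4 = r :=
  (inr M r).choose_spec k

end

variable {M : Set ZFSet.{0}} [TM M] {n : ℕ}

/-- the recursion step -/
def StR (b g k f : M) : Prop :=
  (k ∈ qr M 0 ∧ ap f (ap (q1 M) k) ∈ ap f (ap (q2 M) k)) ∨
  (k ∈ qr M 1 ∧ ap f (ap (q1 M) k) = ap f (ap (q2 M) k)) ∨
  (k ∈ qr M 2 ∧ (f ∈ ap g (ap (q1 M) k) → f ∈ ap g (ap (q2 M) k))) ∨
  (k ∈ qr M 3 ∧ ∀ x : M, x ∈ b → ∀ h : M, h ∈ fno b → Cs h x f → h ∈ ap g (ap (q3 M) k))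

theorem df_StR : Df (fun w : Fin 4 → M => StR (w 0) (w 1) (w 2) (w 3)) := by
  unfold StR
  refine Df.or ?_ (Df.or ?_ (Df.or ?_ ?_))
  all_goals
    apply_rules (transparency := .reducible) [Df.and, Df.all, Df.imp, Df.mem, Df.eq, DfF.Ap,
      DfF.Fno, Df.cs, DfF.var, DfF.const]

/-- the set of the assignments in `b` which satisfy the formula with the number `k` in `(b, ∈)` -/
noncomputable def SB (b k : M) : M := rc (fun g k => sep (fno b) (fun f => StR b g k f)) k

theorem DfF.SB {F K : (Fin n → M) → M} (hF : DfF F) (hK : DfF K) :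
    DfF (fun v => SB (F v) (K v)) := by
  refine DfF.comp2 (F := fun b k : M => G.SB b k) ?_ hF hK
  refine DfF.Rc (H := fun g k v => sep (fno (v 0)) (fun f => StR (v 0) g k f)) ?_ (DfF.var 1)
  refine DfF.Sep (DfF.Fno (DfF.var 2)) (P := fun f w => StR (w 2) (w 0) (w 1) f) ?_
  exact Df.comp4 (P := fun b g k f : M => StR b g k f) df_StR (DfF.var 3) (DfF.var 1) (DfF.var 2)
    (DfF.var 0)

theorem S_df2 (b : M) : DfF (fun w : Fin 2 → M => sep (fno b) (fun f => StR b (w 0) (w 1) f)) := by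
  refine DfF.Sep (DfF.const _) (P := fun f w => StR b (w 0) (w 1) f) ?_
  exact Df.comp4 (P := fun b g k f : M => StR b g k f) df_StR (DfF.const b) (DfF.var 1) (DfF.var 2)
    (DfF.var 0)

theorem S_eq (b k f : M) : f ∈ SB b k ↔ f ∈ fno b ∧ StR b (lam k (fun j => SB b j)) k f := by
  have h1 : SB b k = sep (fno b) (fun f => StR b (lam k (fun j => SB b j)) k f) :=
    rc_eq (H := fun g k => sep (fno b) (fun f => StR b g k f)) (S_df2 b) k
  rw [h1, mem_sep]
  exact Df.comp4 (P := fun b g k f : M => StR b g k f) df_StR (DfF.const b) (DfF.const _)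
    (DfF.const k) (DfF.var 0)

theorem S_ap (b : M) {j k : ℕ} (h : j < k) :
    ap (lam (nm k) (fun j => SB b j)) (nm j) = SB b (nm j) :=
  ap_lam (DfF.SB (DfF.const b) (DfF.var 0)) (nm_lt h)

/-- `rc_eq`; strong induction on `k`, with `L.dec_succ`, as in `L.in_satB`. -/
theorem mem_SB (b f : M) (k : ℕ) : f ∈ SB b (nm k) ↔
    f ∈ fno b ∧ L.SatB b.1 (fun i => (asg f i).1) (L.dec k) := by
  induction k using Nat.strong_induction_on generalizing f with
  | _ k ih =>
    rw [S_eq]
    refine and_congr_right fun hf => ?_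
    rcases k with _ | m
    · rw [L.dec_zero, L.satB_bot]
      unfold StR
      simp only [mem_qr]
      constructor
      · rintro (⟨⟨h, -⟩, -⟩ | ⟨⟨h, -⟩, -⟩ | ⟨⟨h, -⟩, -⟩ | ⟨⟨h, -⟩, -⟩) <;> omega
      · exact fun h => h.elim
    · have hm4 : m / 4 < m + 1 := Nat.lt_succ_of_le (Nat.div_le_self m 4)
      have hm1 : (m / 4).unpair.1 < m + 1 :=
        Nat.lt_succ_of_le ((Nat.unpair_left_le _).trans (Nat.div_le_self m 4))
      have hm2 : (m / 4).unpair.2 < m + 1 :=
        Nat.lt_succ_of_le ((Nat.unpair_right_le _).trans (Nat.div_le_self m 4))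
      have e1 : ∀ r, (nm (m + 1) ∈ qr M r ↔ m % 4 = r) := by
        intro r
        rw [mem_qr]
        constructor
        · exact fun h => h.2
        · exact fun h => ⟨by omega, h⟩
      unfold StR
      rw [ap_q1, ap_q2, ap_q3, e1, e1, e1, e1]
      simp only [Nat.add_sub_cancel]
      rw [S_ap b hm4, S_ap b hm1, S_ap b hm2, L.dec_succ]
      have h4 : m % 4 < 4 := Nat.mod_lt _ (by norm_num)
      obtain ⟨r, hr⟩ : ∃ r, r = m % 4 := ⟨_, rfl⟩
      rw [← hr] at h4 ⊢
      interval_cases r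
      · simp only [if_true]
        simp only [true_and, false_and, or_false, OfNat.zero_ne_ofNat, zero_ne_one]
        exact Iff.rfl
      · simp only [one_ne_zero, if_false, if_true, true_and, false_and, or_false, false_or,
          OfNat.one_ne_ofNat]
        exact Subtype.ext_iff
      · simp only [OfNat.ofNat_ne_zero, OfNat.ofNat_ne_one, if_false, if_true, true_and,
          false_and, or_false, false_or, Nat.reduceEqDiff]
        rw [ih _ hm1, ih _ hm2, L.satB_imp]
        exact ⟨fun h h1 => (h ⟨hf, h1⟩).2, fun h h1 => ⟨hf, h h1.2⟩⟩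
      · simp only [OfNat.ofNat_ne_zero, OfNat.ofNat_ne_one, if_false, true_and,
          false_and, false_or, Nat.reduceEqDiff]
        rw [L.satB_all]
        have hc : ∀ x h : M, Cs h x f → (fun i => (asg h i).1) = L.cns x.1 fun i => (asg f i).1 := by
          intro x h hh
          rw [asg_cs hh]
          exact L.cns_map (fun t : M => t.1) x (asg f)
        constructor
        · intro h x hx
          have hxM : x ∈ M := TM.tr b.1 b.2 x hx
          obtain ⟨g, hg, hcs⟩ := exists_cs_fno (b := b) (x := (⟨x, hxM⟩ : M)) hx hf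
          have h1 := ((ih _ hm4 g).1 (h ⟨x, hxM⟩ hx g hg hcs)).2
          rwa [hc _ _ hcs] at h1
        · intro h x hx g hg hcs
          refine (ih _ hm4 g).2 ⟨hg, ?_⟩
          rw [hc _ _ hcs]
          exact h x.1 hx

end Pool.Agent.H.MP_20495c_lc.G
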