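import Pool.Agent.H.MP_20495c_lc.G.R2

/-!
# Block G, part Z: the constructible sets of a model form a model of ZF
-/

set_option autoImplicit false
set_option linter.unusedSectionVars false

namespace Pool.Agent.H.MP_20495c_lc.G

open Pool.Agent.H.MP_07d118_lc Pool.Agent.H.MP_a163f2_lc

variable {M : Set ZFSet.{0}} [TM M] {n : ℕ}

theorem Z_emp : ((emp : M) : ZFSet.{0}) = ∅ := by
  rw [ZFSet.eq_empty]
  intro y hy
  exact not_mem_emp (⟨y, TM.tr _ (emp : M).2 _ hy⟩ : M) hy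

/-- an assignment with prescribed values on the first `N` variables -/
theorem Z_asg : ∀ (N : ℕ) (v : ℕ → M), ∃ f : M, ∀ i < N, asg f i = v i := by
  intro N
  induction N with
  | zero => exact fun v => ⟨emp, fun i hi => absurd hi (Nat.not_lt_zero i)⟩
  | succ N ih =>
    intro v
    obtain ⟨g, hg⟩ := ih (fun i => v (i + 1))
    obtain ⟨f, -, hf⟩ := exists_cs (v 0) g
    refine ⟨f, fun i hi => ?_⟩
    rw [asg_cs hf]
    cases i with
    | zero => rfl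
    | succ i => exact hg i (by omega)

/-- the assignments of `LC M` as assignments of `M` -/
theorem Z_cons (x : LC M) (v : ℕ → LC M) :
    (fun i => (⟨(cons x v i).1, lc_sub (cons x v i).2⟩ : M)) =
      L.cns (⟨x.1, lc_sub x.2⟩ : M) (fun i => (⟨(v i).1, lc_sub (v i).2⟩ : M)) := by
  funext i
  cases i <;> rfl

/-- the relation between `x` and `y` given by a formula over `LC M` is definable in `M` -/
theorem Z_rel (φ : Fml) (v : ℕ → LC M) : ∃ R : M → M → Prop,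
    Df (fun w : Fin 2 → M => R (w 0) (w 1)) ∧
    ∀ x y : LC M, (R ⟨x.1, lc_sub x.2⟩ ⟨y.1, lc_sub y.2⟩ ↔ Sat (cons y (cons x v)) φ) := by
  obtain ⟨N, hN⟩ := L.exists_bd φ
  obtain ⟨f, hf⟩ := Z_asg N (fun i => (⟨(v i).1, lc_sub (v i).2⟩ : M))
  have hC : Df (fun w : Fin 1 → M => ((w 0 : M) : ZFSet.{0}) ∈ LC M) := df_lc (DfF.var 0)
  refine ⟨fun x y => ∀ g : M, Cs g x f → ∀ h : M, Cs h y g →
    SatC (fun x : M => (x : ZFSet.{0}) ∈ LC M) φ h, ?_, ?_⟩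
  · refine Df.all (P := fun g (w : Fin 2 → M) => Cs g (w 0) f → ∀ h : M, Cs h (w 1) g →
      SatC (fun x : M => (x : ZFSet.{0}) ∈ LC M) φ h) ?_
    refine Df.imp (Df.cs (DfF.var 0) (DfF.var 1) (DfF.const f)) ?_
    refine Df.all (P := fun h (w : Fin 3 → M) => Cs h (w 2) (w 0) →
      SatC (fun x : M => (x : ZFSet.{0}) ∈ LC M) φ h) ?_
    refine Df.imp (Df.cs (DfF.var 0) (DfF.var 3) (DfF.var 1)) ?_
    exact Df.comp1 (df_satC hC φ) (DfF.var 0)
  · intro x y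
    have key : SatX (fun x : M => (x : ZFSet.{0}) ∈ LC M)
        (L.cns (⟨y.1, lc_sub y.2⟩ : M) (L.cns (⟨x.1, lc_sub x.2⟩ : M) (asg f))) φ ↔
        Sat (cons y (cons x v)) φ := by
      rw [sat_lc, Z_cons, Z_cons]
      refine satX_bd hN fun i hi => ?_
      rcases i with _ | _ | i
      · rfl
      · rfl
      · exact hf i (by omega)
    constructor
    · intro h
      obtain ⟨g, -, hg⟩ := exists_cs (⟨x.1, lc_sub x.2⟩ : M) f
      obtain ⟨k, -, hk⟩ := exists_cs (⟨y.1, lc_sub y.2⟩ : M) g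
      have h1 := h g hg k hk
      rw [satC_iff, asg_cs hk, asg_cs hg] at h1
      exact key.1 h1
    · intro h g hg k hk
      rw [satC_iff, asg_cs hk, asg_cs hg]
      exact key.2 h

/-- As `L.LL_zf`, with `lc_sep`, `exists_lev`, `lev_coll`, `exists_lim`. -/
theorem lc_zf : ZF (LC M) where
  ext := by
    intro a b h
    apply Subtype.ext
    ext x
    constructor
    · intro hx
      exact (h ⟨x, lc_trans a.1 a.2 x hx⟩).1 hx
    · intro hx
      exact (h ⟨x, lc_trans b.1 b.2 x hx⟩).2 hx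
  foundation := by
    rintro a ⟨x, hx⟩
    obtain ⟨y, hy, hy2⟩ := ZFSet.regularity a.1 (by
      rintro h
      have : x.1 ∈ a.1 := hx
      rw [h] at this
      exact ZFSet.notMem_empty _ this)
    refine ⟨⟨y, lc_trans a.1 a.2 y hy⟩, hy, ?_⟩
    rintro z ⟨h1, h2⟩
    have h3 : z.1 ∈ a.1 ∩ y := ZFSet.mem_inter.2 ⟨h2, h1⟩
    rw [hy2] at h3
    exact ZFSet.notMem_empty _ h3
  pairing := by
    intro a b
    obtain ⟨a', ha', hla, ha⟩ := a.2
    obtain ⟨b', hb', hlb, hb⟩ := b.2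
    obtain ⟨c, hc, h1, h2⟩ := lev_two (M := M) (a := ⟨a', ha'⟩) (b := ⟨b', hb'⟩) hla hlb
    have h3 : a.1 ∈ c.1 := hc.tr _ h1 _ ha
    have h4 : b.1 ∈ c.1 := hc.tr _ h2 _ hb
    have h5 : ({a.1, b.1} : ZFSet.{0}) ∈ LC M := by
      refine ⟨(kst c).1, (kst c).2, lev_kst hc, ?_⟩
      rw [kst_val]
      exact L.upair_mem_Kst h3 h4
    refine ⟨⟨{a.1, b.1}, h5⟩, fun x => ?_⟩
    show x.1 ∈ ({a.1, b.1} : ZFSet.{0}) ↔ _
    rw [ZFSet.mem_pair, Subtype.ext_iff, Subtype.ext_iff]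
  union := by
    intro a
    obtain ⟨b, hbM, hb, ha⟩ := a.2
    obtain ⟨s, hs⟩ := lc_sep (M := M) ⟨b, lev_mem_lc (b := (⟨b, hbM⟩ : M)) hb⟩
      (L.fexi (L.fconj (.mem 0 2) (.mem 1 0))) (fun _ => a)
    refine ⟨s, fun x => ?_⟩
    rw [hs, L.sat_exi]
    simp only [L.sat_conj]
    constructor
    · rintro ⟨-, y, h1, h2⟩
      exact ⟨y, h1, h2⟩
    · rintro ⟨y, h1, h2⟩
      exact ⟨hb.tr _ (hb.tr _ ha _ h1) _ h2, y, h1, h2⟩
  power := by
    intro a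
    obtain ⟨b, hb, h1⟩ := exists_lev (pow (⟨a.1, lc_sub a.2⟩ : M))
    obtain ⟨s, hs⟩ := lc_sep (M := M) ⟨b.1, lev_mem_lc hb⟩ (.all (.imp (.mem 0 1) (.mem 0 2)))
      (fun _ => a)
    refine ⟨s, fun x => ?_⟩
    rw [hs]
    constructor
    · rintro ⟨-, h⟩
      exact h
    · intro h
      refine ⟨?_, h⟩
      show x.1 ∈ b.1
      refine h1 (⟨x.1, lc_sub x.2⟩ : M) (mem_pow.2 fun y hy => ?_) x.2
      exact h ⟨y.1, lc_trans _ x.2 y.1 hy⟩ hy
  infinity := by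
    obtain ⟨b, hb, h1, -, h2⟩ := exists_lim (M := M) (c := emp) (by
      rw [Z_emp]
      exact L.lev_empty)
    have h3 : (∅ : ZFSet.{0}) ∈ b.1 := by
      have h4 : ((emp : M) : ZFSet.{0}) ∈ b.1 := h1
      rwa [Z_emp] at h4
    have hin : ∀ x, x ∈ b.1 → x ∈ LC M := fun x hx => ⟨b.1, b.2, hb, hx⟩
    refine ⟨⟨b.1, lev_mem_lc hb⟩, ⟨⟨∅, hin _ h3⟩, ?_, h3⟩, ?_⟩
    · intro y hy
      exact ZFSet.notMem_empty y.1 hy
    · intro x hx
      refine ⟨⟨insert x.1 x.1, hin _ (h2 _ hx)⟩, ?_, h2 _ hx⟩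
      intro z
      show z.1 ∈ (insert x.1 x.1 : ZFSet.{0}) ↔ _
      rw [ZFSet.mem_insert_iff, Subtype.ext_iff]
      exact or_comm
  separation := by
    intro φ v a
    exact lc_sep a φ v
  replacement := by
    intro φ v a h
    obtain ⟨R, hR, hR2⟩ := Z_rel φ v
    obtain ⟨b, hb, h1⟩ := lev_coll hR (⟨a.1, lc_sub a.2⟩ : M)
    let ρ : ℕ → ℕ := fun i => Nat.casesOn i 1 fun i => Nat.casesOn i 0 fun i => i + 3
    obtain ⟨s, hs⟩ := lc_sep (M := M) ⟨b.1, lev_mem_lc hb⟩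
      (L.fexi (L.fconj (.mem 0 2) (φ.ren ρ))) (cons a v)
    refine ⟨s, fun y => ?_⟩
    rw [hs, L.sat_exi]
    have key : ∀ x : LC M, Sat (cons x (cons y (cons a v))) (L.fconj (.mem 0 2) (φ.ren ρ)) ↔
        x ∈ a ∧ Sat (cons y (cons x v)) φ := by
      intro x
      rw [L.sat_conj, sat_ren]
      refine and_congr Iff.rfl ?_
      have : (fun i => cons x (cons y (cons a v)) (ρ i)) = cons y (cons x v) := by
        funext i
        rcases i with _ | _ | i <;> rfl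
      rw [this]
    constructor
    · rintro ⟨-, x, hx⟩
      exact ⟨x, (key x).1 hx⟩
    · rintro ⟨x, hx, hy⟩
      refine ⟨?_, x, (key x).2 ⟨hx, hy⟩⟩
      show y.1 ∈ b.1
      obtain ⟨y', hy', hr⟩ := h1 (⟨x.1, lc_sub x.2⟩ : M) hx
        ⟨(⟨y.1, lc_sub y.2⟩ : M), y.2, (hR2 x y).2 hy⟩
      have hy2 : y'.1 ∈ LC M := ⟨b.1, b.2, hb, hy'⟩
      have h3 : Sat (cons (⟨y'.1, hy2⟩ : LC M) (cons x v)) φ := (hR2 x ⟨y'.1, hy2⟩).1 hr
      have h4 := (h x hx).unique hy h3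
      rw [h4]
      exact hy'

end Pool.Agent.H.MP_20495c_lc.G
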